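import Pool.Agent.Lib.Helper20.Skew.Unimod

/-!
# A compact subgroup of `SL(d,ℝ)` preserves a positive definite form
-/

open MeasureTheory Matrix Matrix.SpecialLinearGroup Filter Topology Set

namespace SkewHM

variable {d : ℕ}

/-- A compact subgroup of `SL(d,ℝ)` preserves a positive definite form. -/
theorem exists_invariant_form (K : Subgroup (SLR d)) (hK : IsCompact (K : Set (SLR d))) :
    ∃ S : Matrix (Fin d) (Fin d) ℝ, S.PosDef ∧
      ∀ h ∈ K, (h : Matrix (Fin d) (Fin d) ℝ) * S * (h : Matrix (Fin d) (Fin d) ℝ)ᵀ = S := by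
  have hKc : CompactSpace K := isCompact_iff_compactSpace.1 hK
  let _ : MeasurableSpace K := borel K
  have : BorelSpace K := ⟨rfl⟩
  let ν : Measure K := Measure.haar
  let Fm : K → Matrix (Fin d) (Fin d) ℝ := fun k =>
    ((k : SLR d) : Matrix (Fin d) (Fin d) ℝ) * ((k : SLR d) : Matrix (Fin d) (Fin d) ℝ)ᵀ
  have hval : Continuous (fun k : K => ((k : SLR d) : Matrix (Fin d) (Fin d) ℝ)) :=
    continuous_subtype_val.comp continuous_subtype_val
  have hFc : Continuous Fm := hval.matrix_mul hval.matrix_transpose
  have hFcij : ∀ i j, Continuous (fun k => Fm k i j) := fun i j => hFc.matrix_elem i j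
  have hint : ∀ f : K → ℝ, Continuous f → Integrable f ν := fun f hf =>
    hf.integrable_of_hasCompactSupport (HasCompactSupport.of_compactSpace f)
  let S : Matrix (Fin d) (Fin d) ℝ := fun i j => ∫ k, Fm k i j ∂ν
  have hS : ∀ i j, S i j = ∫ k, Fm k i j ∂ν := fun i j => rfl
  have hsym : ∀ k i j, Fm k i j = Fm k j i := by
    intro k i j
    have : (Fm k)ᵀ = Fm k := by
      simp only [Fm, Matrix.transpose_mul, Matrix.transpose_transpose]
    rw [← congrFun (congrFun this j) i, Matrix.transpose_apply]
  refine ⟨S, ?_, ?_⟩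
  · refine Matrix.PosDef.of_dotProduct_mulVec_pos ?_ ?_
    · ext i j
      simp only [Matrix.conjTranspose_apply, star_trivial, hS, hsym _ j i]
    · intro x hx
      have h1 : star x ⬝ᵥ (S *ᵥ x)
          = ∫ k, (((k : SLR d) : Matrix (Fin d) (Fin d) ℝ)ᵀ *ᵥ x) ⬝ᵥ
            (((k : SLR d) : Matrix (Fin d) (Fin d) ℝ)ᵀ *ᵥ x) ∂ν := by
        have h2 : ∀ k : K, (((k : SLR d) : Matrix (Fin d) (Fin d) ℝ)ᵀ *ᵥ x) ⬝ᵥ
            (((k : SLR d) : Matrix (Fin d) (Fin d) ℝ)ᵀ *ᵥ x)
            = ∑ i, ∑ j, x i * (Fm k i j * x j) := by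
          intro k
          have h3 : (((k : SLR d) : Matrix (Fin d) (Fin d) ℝ)ᵀ *ᵥ x) ⬝ᵥ
            (((k : SLR d) : Matrix (Fin d) (Fin d) ℝ)ᵀ *ᵥ x) = x ⬝ᵥ (Fm k *ᵥ x) := by
            simp only [Fm]
            rw [← Matrix.mulVec_mulVec, Matrix.dotProduct_mulVec x, Matrix.mulVec_transpose]
          rw [h3]
          simp only [dotProduct, mulVec, Finset.mul_sum]
        simp only [h2]
        rw [integral_finsetSum]
        · simp only [dotProduct, mulVec, Pi.star_apply, star_trivial, Finset.mul_sum]
          refine Finset.sum_congr rfl fun i _ => ?_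
          rw [integral_finsetSum]
          · refine Finset.sum_congr rfl fun j _ => ?_
            rw [integral_const_mul, integral_mul_const, hS]
          · intro j _
            exact hint _ (continuous_const.mul ((hFcij i j).mul continuous_const))
        · intro i _
          exact hint _ (continuous_finsetSum _ fun j _ =>
            continuous_const.mul ((hFcij i j).mul continuous_const))
      rw [h1]
      have hcont : Continuous (fun k : K => (((k : SLR d) : Matrix (Fin d) (Fin d) ℝ)ᵀ *ᵥ x) ⬝ᵥ
            (((k : SLR d) : Matrix (Fin d) (Fin d) ℝ)ᵀ *ᵥ x)) := by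
        have h5 : Continuous (fun k : K => ((k : SLR d) : Matrix (Fin d) (Fin d) ℝ)ᵀ *ᵥ x) :=
          hval.matrix_transpose.matrix_mulVec continuous_const
        exact h5.dotProduct h5
      refine Continuous.integral_pos_of_hasCompactSupport_nonneg_nonzero (x := (1 : K)) hcont
        (HasCompactSupport.of_compactSpace _) ?_ ?_
      · intro k
        exact Finset.sum_nonneg fun i _ => mul_self_nonneg _
      · simp only [OneMemClass.coe_one, Matrix.SpecialLinearGroup.coe_one, Matrix.transpose_one,
          Matrix.one_mulVec]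
        intro h0
        apply hx
        exact dotProduct_self_eq_zero.1 h0
  · intro h hh
    ext i j
    have h1 : ((h : Matrix (Fin d) (Fin d) ℝ) * S * (h : Matrix (Fin d) (Fin d) ℝ)ᵀ) i j
        = ∫ k, Fm (⟨h, hh⟩ * k) i j ∂ν := by
      have h2 : ∀ k : K, Fm (⟨h, hh⟩ * k) i j
          = ∑ q, (∑ p, (h : Matrix (Fin d) (Fin d) ℝ) i p * Fm k p q)
            * (h : Matrix (Fin d) (Fin d) ℝ) j q := by
        intro k
        have h3 : Fm (⟨h, hh⟩ * k) = (h : Matrix (Fin d) (Fin d) ℝ) * Fm k
            * (h : Matrix (Fin d) (Fin d) ℝ)ᵀ := by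
          simp only [Fm, Subgroup.coe_mul, Matrix.SpecialLinearGroup.coe_mul,
            Matrix.transpose_mul, Matrix.mul_assoc]
        rw [h3]
        simp only [Matrix.mul_apply, Matrix.transpose_apply]
      simp only [h2]
      rw [integral_finsetSum]
      · simp only [Matrix.mul_apply, Matrix.transpose_apply]
        refine Finset.sum_congr rfl fun q _ => ?_
        rw [integral_mul_const, integral_finsetSum]
        · congr 1
          refine Finset.sum_congr rfl fun p _ => ?_
          rw [integral_const_mul, hS]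
        · intro p _
          exact hint _ (continuous_const.mul (hFcij p q))
      · intro q _
        exact hint _ ((continuous_finsetSum _ fun p _ =>
          continuous_const.mul (hFcij p q)).mul continuous_const)
    rw [h1, hS]
    exact integral_mul_left_eq_self (μ := ν) (fun k => Fm k i j) ⟨h, hh⟩

end SkewHM
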