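import Pool.Agent.Lib.Helper20.Skew.Unimod

/-!
# The Koopman representation of `SL(d,ℝ)`
-/

open MeasureTheory Set Filter Topology

open scoped ENNReal

namespace SkewHM

section General

variable {ι : Type*} [Fintype ι] [DecidableEq ι]
  {X : Type*} [TopologicalSpace X] [MeasurableSpace X] [BorelSpace X]
  [MulAction (Matrix.SpecialLinearGroup ι ℝ) X] [ContinuousSMul (Matrix.SpecialLinearGroup ι ℝ) X]
  (m : Measure X) [SMulInvariantMeasure (Matrix.SpecialLinearGroup ι ℝ) X m]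

/-- The Koopman representation on the space of square integrable functions. -/
noncomputable def koopman : Matrix.SpecialLinearGroup ι ℝ →* (Lp ℝ 2 m ≃ₗᵢ[ℝ] Lp ℝ 2 m) where
  toFun g :=
    { toFun := fun v => DomMulAct.mk g⁻¹ • v
      invFun := fun v => DomMulAct.mk g • v
      map_add' := fun v w => smul_add _ v w
      map_smul' := fun c v => smul_comm _ c v
      left_inv := fun v => by
        show DomMulAct.mk g • (DomMulAct.mk g⁻¹ • v) = v
        rw [smul_smul, ← DomMulAct.mk_mul, inv_mul_cancel, DomMulAct.mk_one, one_smul]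
      right_inv := fun v => by
        show DomMulAct.mk g⁻¹ • (DomMulAct.mk g • v) = v
        rw [smul_smul, ← DomMulAct.mk_mul, mul_inv_cancel, DomMulAct.mk_one, one_smul]
      norm_map' := fun v => DomMulAct.norm_smul_Lp _ v }
  map_one' := by
    ext1 v
    show DomMulAct.mk (1 : Matrix.SpecialLinearGroup ι ℝ)⁻¹ • v = v
    rw [inv_one, DomMulAct.mk_one, one_smul]
  map_mul' g h := by
    ext1 v
    show DomMulAct.mk (g * h)⁻¹ • v = DomMulAct.mk g⁻¹ • (DomMulAct.mk h⁻¹ • v)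
    rw [smul_smul, ← DomMulAct.mk_mul, mul_inv_rev]

lemma koopman_apply (g : Matrix.SpecialLinearGroup ι ℝ) (v : Lp ℝ 2 m) :
    koopman m g v = DomMulAct.mk g⁻¹ • v := rfl

lemma koopman_ae (g : Matrix.SpecialLinearGroup ι ℝ) (v : Lp ℝ 2 m) :
    koopman m g v =ᵐ[m] fun y => v (g⁻¹ • y) :=
  DomMulAct.smul_Lp_ae_eq (DomMulAct.mk g⁻¹) v

lemma continuous_koopman [R1Space X] [IsLocallyFiniteMeasure m] [m.InnerRegularCompactLTTop]
    (v : Lp ℝ 2 m) : Continuous fun g : Matrix.SpecialLinearGroup ι ℝ => koopman m g v := by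
  let _ : MeasurableSpace (Matrix.SpecialLinearGroup ι ℝ) := borel _
  have : BorelSpace (Matrix.SpecialLinearGroup ι ℝ) := ⟨rfl⟩
  have : Fact ((2 : ℝ≥0∞) ≠ ∞) := ⟨by simp⟩
  have h1 : Continuous fun g : Matrix.SpecialLinearGroup ι ℝ => DomMulAct.mk g⁻¹ :=
    DomMulAct.continuous_mk.comp continuous_inv
  exact h1.smul continuous_const

end General

section Homogeneous

variable {d : ℕ} (Γ : Subgroup (SLR d))
  [MeasurableSpace (SLR d ⧸ Γ)] [BorelSpace (SLR d ⧸ Γ)] (m : Measure (SLR d ⧸ Γ))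

/-- An almost invariant function on `G/Γ` is almost everywhere constant. -/
lemma ae_const_of_invariant [IsClosed (Γ : Set (SLR d))] [IsProbabilityMeasure m]
    [SMulInvariantMeasure (SLR d) (SLR d ⧸ Γ) m]
    (f : SLR d ⧸ Γ → ℝ) (hf : Measurable f) (h : ∀ g : SLR d, ∀ᵐ y ∂m, f (g⁻¹ • y) = f y) :
    ∃ c : ℝ, ∀ᵐ y ∂m, f y = c := by
  let _ : MeasurableSpace (SLR d) := borel _
  have : BorelSpace (SLR d) := ⟨rfl⟩
  let μ : Measure (SLR d) := Measure.haar
  have hact : Measurable fun p : SLR d × (SLR d ⧸ Γ) => p.1⁻¹ • p.2 :=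
    (measurable_fst.inv).smul measurable_snd
  have h1 : ∀ᵐ p ∂(μ.prod m), f (p.1⁻¹ • p.2) = f p.2 := by
    have hmeas : MeasurableSet {p : SLR d × (SLR d ⧸ Γ) | f (p.1⁻¹ • p.2) = f p.2} :=
      measurableSet_eq_fun (hf.comp hact) (hf.comp measurable_snd)
    rw [ae_iff]
    have h2 : MeasurableSet {p : SLR d × (SLR d ⧸ Γ) | ¬ f (p.1⁻¹ • p.2) = f p.2} := hmeas.compl
    rw [Measure.measure_prod_null h2]
    refine Eventually.of_forall fun g => ?_
    exact (ae_iff.1 (h g))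
  have h2 : ∀ᵐ p ∂(m.prod μ), f (p.2⁻¹ • p.1) = f p.1 := by
    have := (Measure.measurePreserving_swap (μ := m) (ν := μ)).quasiMeasurePreserving.ae h1
    exact this
  have h3 := Measure.ae_ae_of_ae_prod h2
  obtain ⟨y₀, hy₀⟩ := h3.exists
  refine ⟨f y₀, ?_⟩
  set N : Set (SLR d ⧸ Γ) := {y | ¬ f y = f y₀} with hN
  have hNm : MeasurableSet N := (measurableSet_eq_fun hf measurable_const).compl
  have h4 : μ {g | g⁻¹ • y₀ ∈ N} = 0 := ae_iff.1 hy₀
  have h5 : ∀ y : SLR d ⧸ Γ, μ {g | g⁻¹ • y ∈ N} = 0 := by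
    intro y
    obtain ⟨k, rfl⟩ : ∃ k : SLR d, y = k • y₀ := by
      obtain ⟨k, hk⟩ := MulAction.exists_smul_eq (SLR d) y₀ y
      exact ⟨k, hk.symm⟩
    have h6 : {g : SLR d | g⁻¹ • k • y₀ ∈ N} = (fun g => k⁻¹ * g) ⁻¹' {g | g⁻¹ • y₀ ∈ N} := by
      ext g
      simp only [mem_ofPred_eq, mem_preimage, mul_inv_rev, inv_inv, mul_smul]
    rw [h6]
    have h7 : MeasurableSet {g : SLR d | g⁻¹ • y₀ ∈ N} :=
      (measurable_inv.smul measurable_const) hNm
    rw [(measurePreserving_mul_left μ k⁻¹).measure_preimage h7.nullMeasurableSet, h4]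
  have h6 : (m.prod μ) {p : (SLR d ⧸ Γ) × SLR d | p.2⁻¹ • p.1 ∈ N} = 0 := by
    have hm : MeasurableSet {p : (SLR d ⧸ Γ) × SLR d | p.2⁻¹ • p.1 ∈ N} :=
      (measurable_snd.inv.smul measurable_fst) hNm
    rw [Measure.measure_prod_null hm]
    exact Eventually.of_forall h5
  have h7 : ∀ᵐ p ∂(m.prod μ), ¬ p.2⁻¹ • p.1 ∈ N := by
    rw [ae_iff]
    simpa using h6
  have h8 : ∀ᵐ p ∂(μ.prod m), ¬ p.1⁻¹ • p.2 ∈ N := by
    have := (Measure.measurePreserving_swap (μ := μ) (ν := m)).quasiMeasurePreserving.ae h7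
    exact this
  have h9 := Measure.ae_ae_of_ae_prod h8
  obtain ⟨g, hg⟩ := h9.exists
  have h10 : m {y | g⁻¹ • y ∈ N} = 0 := by
    have := ae_iff.1 hg
    simpa using this
  have h11 : m {y | g⁻¹ • y ∈ N} = m N := measure_preimage_smul m g⁻¹ N
  rw [h11] at h10
  exact ae_iff.2 h10

theorem const_of_isFixed_koopman [IsClosed (Γ : Set (SLR d))] [IsProbabilityMeasure m]
    [SMulInvariantMeasure (SLR d) (SLR d ⧸ Γ) m] (v : Lp ℝ 2 m) (hv : IsFixed (koopman (ι := Fin d) m) v) :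
    ∃ c : ℝ, v =ᵐ[m] fun _ => c := by
  refine ae_const_of_invariant Γ m v (Lp.stronglyMeasurable v).measurable fun g => ?_
  have h1 := koopman_ae m g v
  rw [hv g] at h1
  filter_upwards [h1] with y hy
  exact hy.symm

/-- The Koopman representation on `L²(G/Γ)`. -/
theorem exists_koopman [IsClosed (Γ : Set (SLR d))] [IsProbabilityMeasure m]
    [SMulInvariantMeasure (SLR d) (SLR d ⧸ Γ) m] :
    ∃ π : SLR d →* (Lp ℝ 2 m ≃ₗᵢ[ℝ] Lp ℝ 2 m), (∀ v, Continuous fun g => π g v) ∧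
      (∀ g v, π g v =ᵐ[m] fun y => v (g⁻¹ • y)) ∧
      (∀ v, IsFixed π v → ∃ c : ℝ, v =ᵐ[m] fun _ => c) :=
  ⟨koopman m, continuous_koopman m, koopman_ae m, const_of_isFixed_koopman Γ m⟩

end Homogeneous

/-- `SL(d,ℤ)` as a subgroup of `SL(d,ℝ)`. -/
def SLZ (d : ℕ) : Subgroup (SLR d) :=
  (Matrix.SpecialLinearGroup.map (n := Fin d) (Int.castRingHom ℝ)).range

instance isClosed_SLZ (d : ℕ) : IsClosed (SLZ d : Set (SLR d)) := by
  have h1 : IsClosedEmbedding (Int.castRingHom ℝ) := Int.isClosedEmbedding_coe_real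
  have h2 := (h1.specialLinearGroup_map (n := Fin d)).isClosed_range
  rw [SLZ, MonoidHom.coe_range]
  exact h2

end SkewHM
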