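import Pool.Agent.Lib.Helper20.Skew.Unimod

/-!
# Null sets of `SL(d,ℝ)` cut out by conditions which are affine along root subgroups
-/

open MeasureTheory Matrix Matrix.SpecialLinearGroup Filter Topology Set

set_option linter.unusedSectionVars false

namespace SkewHM

variable {d : ℕ}

/-- `A` is closed, and each line `s ↦ g T_ij(s) x` is contained in `A` or meets it in at most
one point. -/
def LineSet (A : Set (SLR d)) : Prop :=
  IsClosed A ∧ ∀ (g x : SLR d) (i j : Fin d) (hij : i ≠ j),
    {s : ℝ | g * SpecialLinearGroup.transvection hij s * x ∈ A} = univ ∨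
    {s : ℝ | g * SpecialLinearGroup.transvection hij s * x ∈ A}.Subsingleton

/-- The points `g` of the group such that all `g T_ij(s)` are in `A`. -/
def derivedSet (A : Set (SLR d)) : Set (SLR d) :=
  {g | ∀ (i j : Fin d) (hij : i ≠ j) (s : ℝ),
    g * SpecialLinearGroup.transvection hij s ∈ A}

lemma LineSet.derived {A : Set (SLR d)} (hA : LineSet A) : LineSet (derivedSet A) := by
  constructor
  · have : derivedSet A = ⋂ (i : Fin d) (j : Fin d) (hij : i ≠ j) (s : ℝ),
        (fun g : SLR d => g * SpecialLinearGroup.transvection hij s) ⁻¹' A := by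
      ext g
      simp [derivedSet]
    rw [this]
    refine isClosed_iInter fun i => isClosed_iInter fun j => isClosed_iInter fun hij =>
      isClosed_iInter fun s => hA.1.preimage (continuous_mul_const _)
  · intro g x i j hij
    by_cases h : ∀ (i' j' : Fin d) (hij' : i' ≠ j') (s' : ℝ),
        {s : ℝ | g * SpecialLinearGroup.transvection hij s *
          (x * SpecialLinearGroup.transvection hij' s') ∈ A} = univ
    · left
      ext s
      simp only [mem_ofPred_eq, mem_univ, iff_true, derivedSet]
      intro i' j' hij' s'
      have := (h i' j' hij' s').ge (mem_univ s)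
      simpa [mul_assoc] using this
    · right
      push Not at h
      obtain ⟨i', j', hij', s', hs'⟩ := h
      have h2 := (hA.2 g (x * SpecialLinearGroup.transvection hij' s') i j hij).resolve_left hs'
      refine h2.anti ?_
      intro s hs
      simpa [mul_assoc] using hs i' j' hij' s'

/-- The zero set of a map to a vector space which is affine along the root subgroups. -/
lemma lineSet_of_affine {V : Type*} [AddCommGroup V] [Module ℝ V] [TopologicalSpace V] [T1Space V]
    (F : SLR d → V) (hF : Continuous F)
    (haff : ∀ (g x : SLR d) (i j : Fin d) (hij : i ≠ j), ∃ α β : V, ∀ s : ℝ,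
      F (g * SpecialLinearGroup.transvection hij s * x) = α + s • β) :
    LineSet {g | F g = 0} := by
  refine ⟨isClosed_singleton.preimage hF, ?_⟩
  intro g x i j hij
  obtain ⟨α, β, h⟩ := haff g x i j hij
  simp only [mem_ofPred_eq, h]
  by_cases hβ : β = 0
  · subst hβ
    by_cases hα : α = 0
    · left
      ext s
      simp [hα]
    · right
      intro s hs
      simp [hα] at hs
  · right
    intro s hs t ht
    simp only [mem_ofPred_eq] at hs ht
    have h2 : (s - t) • β = 0 := by
      rw [sub_smul]
      have : s • β = t • β := add_left_cancel (hs.trans ht.symm)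
      rw [this, sub_self]
    rcases smul_eq_zero.1 h2 with h3 | h3
    · linarith
    · exact absurd h3 hβ

variable [MeasurableSpace (SLR d)] [BorelSpace (SLR d)] (μ : Measure (SLR d)) [μ.IsHaarMeasure]

lemma LineSet.measure_sdiff_line {A : Set (SLR d)} (hA : LineSet A) (i j : Fin d) (hij : i ≠ j) :
    μ (A \ {g | ∀ s : ℝ, g * SpecialLinearGroup.transvection hij s ∈ A}) = 0 := by
  set C : Set (SLR d) := {g | ∀ s : ℝ, g * SpecialLinearGroup.transvection hij s ∈ A} with hC
  have hCc : IsClosed C := by
    have : C = ⋂ s : ℝ, (fun g : SLR d => g * SpecialLinearGroup.transvection hij s) ⁻¹' A := by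
      ext g
      simp [hC]
    rw [this]
    exact isClosed_iInter fun s => hA.1.preimage (continuous_mul_const _)
  have hBm : MeasurableSet (A \ C) := hA.1.measurableSet.diff hCc.measurableSet
  set E : Set (SLR d × ℝ) := {p | p.1 * SpecialLinearGroup.transvection hij p.2 ∈ A \ C} with hE
  have hcont : Continuous (fun p : SLR d × ℝ => p.1 * SpecialLinearGroup.transvection hij p.2) :=
    continuous_fst.mul ((continuous_transvection hij).comp continuous_snd)
  have hEm : MeasurableSet E := hcont.measurable hBm
  have hE0 : (μ.prod volume) E = 0 := by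
    rw [Measure.measure_prod_null hEm]
    refine Filter.Eventually.of_forall fun g => ?_
    have hsub : (Prod.mk g ⁻¹' E).Subsingleton := by
      intro s hs t ht
      have h1 : {s : ℝ | g * SpecialLinearGroup.transvection hij s * 1 ∈ A}.Subsingleton := by
        refine (hA.2 g 1 i j hij).resolve_left fun h => ?_
        refine hs.2 fun r => ?_
        have h3 := h.ge (mem_univ (s + r))
        simpa [transvection_add, mul_assoc] using h3
      have hs1 : g * SpecialLinearGroup.transvection hij s ∈ A := hs.1
      have ht1 : g * SpecialLinearGroup.transvection hij t ∈ A := ht.1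
      exact h1 (by simpa using hs1) (by simpa using ht1)
    exact hsub.measure_zero _
  have hE1 : (volume.prod μ) (Prod.swap ⁻¹' E) = 0 := by
    have := (Measure.measurePreserving_swap (μ := (volume : Measure ℝ)) (ν := μ)).measure_preimage
      hEm.nullMeasurableSet
    rw [this, hE0]
  rw [Measure.measure_prod_null (measurable_swap hEm)] at hE1
  obtain ⟨s, hs⟩ := hE1.exists
  have h5 : μ ((fun g => g * SpecialLinearGroup.transvection hij s) ⁻¹' (A \ C)) = 0 := hs
  rwa [(measurePreserving_mul_right μ _).measure_preimage hBm.nullMeasurableSet] at h5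

lemma LineSet.measure_sdiff_derived {A : Set (SLR d)} (hA : LineSet A) :
    μ (A \ derivedSet A) = 0 := by
  have : A \ derivedSet A ⊆ ⋃ (i : Fin d) (j : Fin d) (hij : i ≠ j),
      (A \ {g | ∀ s : ℝ, g * SpecialLinearGroup.transvection hij s ∈ A}) := by
    rintro g ⟨hg, hg'⟩
    simp only [derivedSet, mem_ofPred_eq] at hg'
    push Not at hg'
    obtain ⟨i, j, hij, s, hs⟩ := hg'
    simp only [mem_iUnion]
    exact ⟨i, j, hij, hg, fun h => hs (h s)⟩
  refine measure_mono_null this ?_
  refine measure_iUnion_null fun i => measure_iUnion_null fun j => ?_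
  rw [measure_iUnion_null_iff]
  intro hij
  exact hA.measure_sdiff_line μ i j hij

/-- A `LineSet` which is not the whole group is a null set. -/
theorem LineSet.measure_zero (hd : 2 ≤ d) {A : Set (SLR d)} (hA : LineSet A) (hne : A ≠ univ) :
    μ A = 0 := by
  have : Nontrivial (Fin d) := Fin.nontrivial_iff_two_le.2 hd
  set D : ℕ → Set (SLR d) := fun k => derivedSet^[k] A with hD
  have hDs : ∀ k, D (k + 1) = derivedSet (D k) := fun k => by
    simp only [hD, Function.iterate_succ_apply']
  have hDl : ∀ k, LineSet (D k) := by
    intro k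
    induction k with
    | zero => exact hA
    | succ k ih => rw [hDs]; exact ih.derived
  have hDn : ∀ k, μ (A \ D k) = 0 := by
    intro k
    induction k with
    | zero => simp [hD]
    | succ k ih =>
      have : A \ D (k + 1) ⊆ (A \ D k) ∪ (D k \ D (k + 1)) := by
        rintro g ⟨h1, h2⟩
        by_cases h : g ∈ D k
        · exact Or.inr ⟨h, h2⟩
        · exact Or.inl ⟨h1, h⟩
      refine measure_mono_null this (measure_union_null ih ?_)
      rw [hDs]
      exact (hDl k).measure_sdiff_derived μ
  have hall : μ (A \ ⋂ k, D k) = 0 := by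
    rw [Set.sdiff_iInter]
    exact measure_iUnion_null hDn
  by_contra hpos
  have hex : ∃ g, g ∈ ⋂ k, D k := by
    by_contra hno
    push Not at hno
    apply hpos
    refine measure_mono_null (fun g hg => ?_) hall
    exact ⟨hg, hno g⟩
  obtain ⟨g, hg⟩ := hex
  rw [mem_iInter] at hg
  set P : SLR d → Prop := fun x => ∀ g : SLR d, (∀ k, g ∈ D k) → ∀ k, g * x ∈ D k with hP
  have hPt : ∀ (i j : Fin d) (hij : i ≠ j) (c : ℝ), P (SpecialLinearGroup.transvection hij c) := by
    intro i j hij c g hg k
    have := hg (k + 1)
    rw [hDs] at this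
    exact this i j hij c
  have hPm : ∀ x y, P x → P y → P (x * y) := by
    intro x y hx hy g hg k
    rw [← mul_assoc]
    exact hy _ (hx g hg) k
  have hPall : ∀ x, P x := by
    intro x
    refine diagonal_transvection_induction' P x ?_ hPt hPm
    intro i j hij c hc
    have h1 := transvection_diag_identity hij c hc 1 one_ne_zero
    have h2 : diag2n hij c hc = SpecialLinearGroup.transvection hij.symm (-(1 / c)) *
        (SpecialLinearGroup.transvection hij ((c - 1) / 1) *
        SpecialLinearGroup.transvection hij.symm 1 *
        SpecialLinearGroup.transvection hij ((c⁻¹ - 1) / 1)) := by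
      rw [h1, ← mul_assoc, ← transvection_add, neg_add_cancel, transvection_coeff_zero, one_mul]
    rw [h2]
    exact hPm _ _ (hPt _ _ _ _) (hPm _ _ (hPm _ _ (hPt _ _ _ _) (hPt _ _ _ _)) (hPt _ _ _ _))
  apply hne
  ext x
  simp only [mem_univ, iff_true]
  have := hPall (g⁻¹ * x) g hg 0
  simpa [hD] using this

end SkewHM
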