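import Pool.Agent.Lib.Helper20.Skew.InvForm
import Pool.Agent.Lib.Helper20.Skew.ZeroSet

/-!
# Almost every tuple of elements of `SL(d,ℝ)` generates an unbounded group
-/

open MeasureTheory Matrix Matrix.SpecialLinearGroup Filter Topology Set

namespace SkewHM

variable {d : ℕ}

lemma coe_mul_transvection_mul (g x : SLR d) {i j : Fin d} (hij : i ≠ j) (s : ℝ) :
    ((g * SpecialLinearGroup.transvection hij s * x : SLR d) : Matrix (Fin d) (Fin d) ℝ)
      = (g : Matrix (Fin d) (Fin d) ℝ) * (x : Matrix (Fin d) (Fin d) ℝ)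
        + s • ((g : Matrix (Fin d) (Fin d) ℝ) * Matrix.single i j 1 * (x : Matrix (Fin d) (Fin d) ℝ)) := by
  have h1 : (Matrix.single i j s : Matrix (Fin d) (Fin d) ℝ) = s • Matrix.single i j 1 := by
    rw [Matrix.smul_single, smul_eq_mul, mul_one]
  simp only [Matrix.SpecialLinearGroup.coe_mul, transvection_coe, h1]
  rw [Matrix.mul_add, Matrix.mul_one, Matrix.add_mul, Matrix.mul_smul, Matrix.smul_mul]

/-- The closure of a bounded subgroup is compact. -/
lemma isCompact_topologicalClosure (K : Subgroup (SLR d)) (B : ℝ)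
    (hB : ∀ h ∈ K, ∀ i j, |(h : Matrix (Fin d) (Fin d) ℝ) i j| ≤ B) :
    IsCompact (K.topologicalClosure : Set (SLR d)) := by
  set C : Set (Matrix (Fin d) (Fin d) ℝ) := {M | ∀ i j, M i j ∈ Icc (-B) B} with hC
  have hCc : IsCompact C := by
    have : C = Set.pi univ (fun _ : Fin d => Set.pi univ fun _ : Fin d => Icc (-B) B) := by
      ext M
      constructor
      · intro h i _ j _
        exact h i j
      · intro h i j
        exact h i (mem_univ _) j (mem_univ _)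
    rw [this]
    exact isCompact_univ_pi fun _ => isCompact_univ_pi fun _ => isCompact_Icc
  have hpre : IsCompact ((fun h : SLR d => (h : Matrix (Fin d) (Fin d) ℝ)) ⁻¹' C) :=
    (Matrix.SpecialLinearGroup.isClosedEmbedding_val (n := Fin d) (R := ℝ)).isCompact_preimage hCc
  refine hpre.of_isClosed_subset (Subgroup.isClosed_topologicalClosure K) ?_
  rw [Subgroup.topologicalClosure_coe]
  refine closure_minimal ?_ hpre.isClosed
  intro h hh i j
  exact abs_le.1 (hB h hh i j)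

/-! ### The case `d ≥ 3` -/

lemma lineSet_trace : LineSet {h : SLR d | Matrix.trace (h : Matrix (Fin d) (Fin d) ℝ)
    - Matrix.trace ((h⁻¹ : SLR d) : Matrix (Fin d) (Fin d) ℝ) = 0} := by
  refine lineSet_of_affine (fun h : SLR d => Matrix.trace (h : Matrix (Fin d) (Fin d) ℝ)
    - Matrix.trace ((h⁻¹ : SLR d) : Matrix (Fin d) (Fin d) ℝ)) ?_ ?_
  · have h1 : Continuous (fun h : SLR d => (h : Matrix (Fin d) (Fin d) ℝ)) :=
      continuous_subtype_val
    exact h1.matrix_trace.sub (h1.comp continuous_inv).matrix_trace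
  · intro g x i j hij
    refine ⟨Matrix.trace ((g : Matrix (Fin d) (Fin d) ℝ) * (x : Matrix (Fin d) (Fin d) ℝ))
      - Matrix.trace (((x⁻¹ : SLR d) : Matrix (Fin d) (Fin d) ℝ)
        * ((g⁻¹ : SLR d) : Matrix (Fin d) (Fin d) ℝ)),
      Matrix.trace ((g : Matrix (Fin d) (Fin d) ℝ) * Matrix.single i j 1 * (x : Matrix (Fin d) (Fin d) ℝ))
      + Matrix.trace (((x⁻¹ : SLR d) : Matrix (Fin d) (Fin d) ℝ) * Matrix.single i j 1
        * ((g⁻¹ : SLR d) : Matrix (Fin d) (Fin d) ℝ)), fun s => ?_⟩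
    have h1 : (g * SpecialLinearGroup.transvection hij s * x)⁻¹
        = x⁻¹ * SpecialLinearGroup.transvection hij (-s) * g⁻¹ := by
      rw [_root_.mul_inv_rev, _root_.mul_inv_rev, transvection_inv, mul_assoc]
    rw [h1, coe_mul_transvection_mul, coe_mul_transvection_mul, Matrix.trace_add,
      Matrix.trace_add, Matrix.trace_smul, Matrix.trace_smul]
    simp only [smul_eq_mul]
    ring

lemma trace_ne (hd : 3 ≤ d) : ∃ h : SLR d, Matrix.trace (h : Matrix (Fin d) (Fin d) ℝ)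
    - Matrix.trace ((h⁻¹ : SLR d) : Matrix (Fin d) (Fin d) ℝ) ≠ 0 := by
  obtain ⟨i, j, k, hij, hjk, hki⟩ : ∃ i j k : Fin d, i ≠ j ∧ j ≠ k ∧ k ≠ i :=
    ⟨⟨0, by omega⟩, ⟨1, by omega⟩, ⟨2, by omega⟩, by simp, by simp, by simp⟩
  refine ⟨SpecialLinearGroup.transvection hij 1 * SpecialLinearGroup.transvection hjk 1
    * SpecialLinearGroup.transvection hki 1, ?_⟩
  have h1 : (SpecialLinearGroup.transvection hij (1 : ℝ) * SpecialLinearGroup.transvection hjk 1
    * SpecialLinearGroup.transvection hki 1)⁻¹ = SpecialLinearGroup.transvection hki (-1)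
    * SpecialLinearGroup.transvection hjk (-1) * SpecialLinearGroup.transvection hij (-1) := by
    rw [_root_.mul_inv_rev, _root_.mul_inv_rev, transvection_inv, transvection_inv, transvection_inv, mul_assoc]
  rw [h1]
  simp only [Matrix.SpecialLinearGroup.coe_mul, transvection_coe, mul_add, add_mul, mul_one,
    one_mul, single_mul_single_same, single_mul_single_of_ne _ _ _ _ hij,
    single_mul_single_of_ne _ _ _ _ hjk, single_mul_single_of_ne _ _ _ _ hki,
    single_mul_single_of_ne _ _ _ _ hij.symm,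
    single_mul_single_of_ne _ _ _ _ hjk.symm, single_mul_single_of_ne _ _ _ _ hki.symm,
    Matrix.trace_add, Matrix.trace_single_eq_of_ne _ _ _ hij,
    Matrix.trace_single_eq_of_ne _ _ _ hjk, Matrix.trace_single_eq_of_ne _ _ _ hki,
    Matrix.trace_single_eq_of_ne _ _ _ hij.symm,
    Matrix.trace_single_eq_of_ne _ _ _ hjk.symm, Matrix.trace_single_eq_of_ne _ _ _ hki.symm,
    Matrix.trace_single_eq_same, Matrix.trace_zero, zero_mul, add_zero, zero_add]
  norm_num

lemma lineSet_commute (g₀ : SLR d) : LineSet {h : SLR d | g₀ * h = h * g₀} := by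
  have h0 : {h : SLR d | g₀ * h = h * g₀} = {h : SLR d |
      ((g₀ : Matrix (Fin d) (Fin d) ℝ) * (h : Matrix (Fin d) (Fin d) ℝ)
      - (h : Matrix (Fin d) (Fin d) ℝ) * (g₀ : Matrix (Fin d) (Fin d) ℝ)) = 0} := by
    ext h
    simp only [mem_ofPred_eq]
    rw [sub_eq_zero, ← Matrix.SpecialLinearGroup.coe_mul, ← Matrix.SpecialLinearGroup.coe_mul]
    exact Subtype.ext_iff
  rw [h0]
  refine lineSet_of_affine (fun h : SLR d =>
      ((g₀ : Matrix (Fin d) (Fin d) ℝ) * (h : Matrix (Fin d) (Fin d) ℝ)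
      - (h : Matrix (Fin d) (Fin d) ℝ) * (g₀ : Matrix (Fin d) (Fin d) ℝ))) ?_ ?_
  · have h1 : Continuous (fun h : SLR d => (h : Matrix (Fin d) (Fin d) ℝ)) :=
      continuous_subtype_val
    exact (continuous_const.matrix_mul h1).sub (h1.matrix_mul continuous_const)
  · intro g x i j hij
    refine ⟨(g₀ : Matrix (Fin d) (Fin d) ℝ) * ((g : Matrix (Fin d) (Fin d) ℝ) * (x : Matrix (Fin d) (Fin d) ℝ))
      - ((g : Matrix (Fin d) (Fin d) ℝ) * (x : Matrix (Fin d) (Fin d) ℝ)) * (g₀ : Matrix (Fin d) (Fin d) ℝ),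
      (g₀ : Matrix (Fin d) (Fin d) ℝ) * ((g : Matrix (Fin d) (Fin d) ℝ) * Matrix.single i j 1 * (x : Matrix (Fin d) (Fin d) ℝ))
      - ((g : Matrix (Fin d) (Fin d) ℝ) * Matrix.single i j 1 * (x : Matrix (Fin d) (Fin d) ℝ))
        * (g₀ : Matrix (Fin d) (Fin d) ℝ), fun s => ?_⟩
    rw [coe_mul_transvection_mul, Matrix.mul_add, Matrix.add_mul, Matrix.mul_smul,
      Matrix.smul_mul, smul_sub]
    abel

/-- Elements of `SL(2,ℝ)` which preserve the same positive definite form commute. -/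
lemma commute_of_form (S : Matrix (Fin 2) (Fin 2) ℝ) (hS : S.PosDef) (g h : SLR 2)
    (hg : (g : Matrix (Fin 2) (Fin 2) ℝ) * S * (g : Matrix (Fin 2) (Fin 2) ℝ)ᵀ = S)
    (hh : (h : Matrix (Fin 2) (Fin 2) ℝ) * S * (h : Matrix (Fin 2) (Fin 2) ℝ)ᵀ = S) :
    g * h = h * g := by
  have hp : 0 < S 0 0 := hS.diag_pos
  have hsym : S 1 0 = S 0 1 := by
    have := hS.isHermitian.apply 0 1
    simpa using this
  have key : ∀ x : SLR 2, (x : Matrix (Fin 2) (Fin 2) ℝ) * S
      * (x : Matrix (Fin 2) (Fin 2) ℝ)ᵀ = S →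
      S 0 0 * x 1 0 = - (S 1 1 * x 0 1) ∧ S 0 0 * (x 1 1 - x 0 0) = 2 * S 0 1 * x 0 1 := by
    intro x hx
    have hdet : x 0 0 * x 1 1 - x 0 1 * x 1 0 = 1 := by
      have := x.2
      rwa [Matrix.det_fin_two] at this
    have e00 := congrFun (congrFun hx 0) 0
    have e01 := congrFun (congrFun hx 0) 1
    simp only [Matrix.mul_apply, Fin.sum_univ_two, Matrix.transpose_apply, hsym] at e00 e01
    constructor
    · linear_combination (-x 1 0) * e00 + (x 0 0) * e01
        - (S 0 1 * x 0 0 + S 1 1 * x 0 1) * hdet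
    · linear_combination (-x 1 1) * e00 + (x 0 1) * e01
        + (S 0 0 * x 0 0 + S 0 1 * x 0 1) * hdet
  obtain ⟨g1, g2⟩ := key g hg
  obtain ⟨h1, h2⟩ := key h hh
  have hp2 : S 0 0 ≠ 0 := hp.ne'
  have hc : ∀ x : SLR 2, S 0 0 * x 1 0 = - (S 1 1 * x 0 1) ∧
      S 0 0 * (x 1 1 - x 0 0) = 2 * S 0 1 * x 0 1 →
      x 1 0 = - (S 1 1 * x 0 1) / S 0 0 ∧ x 1 1 = x 0 0 + 2 * S 0 1 * x 0 1 / S 0 0 := by
    rintro x ⟨ha, hb⟩
    constructor
    · field_simp
      linarith
    · field_simp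
      linarith
  obtain ⟨g3, g4⟩ := hc g ⟨g1, g2⟩
  obtain ⟨h3, h4⟩ := hc h ⟨h1, h2⟩
  refine Matrix.SpecialLinearGroup.ext _ _ ?_
  simp only [Fin.forall_fin_two, Matrix.SpecialLinearGroup.coe_mul, Matrix.mul_apply,
    Fin.sum_univ_two, g3, g4, h3, h4]
  refine ⟨⟨?_, ?_⟩, ?_, ?_⟩ <;> ring

set_option linter.unusedSectionVars false

variable [MeasurableSpace (SLR d)] [BorelSpace (SLR d)] (μ : Measure (SLR d)) [μ.IsHaarMeasure]

lemma measure_trace_eq (hd : 3 ≤ d) :
    μ {h : SLR d | Matrix.trace (h : Matrix (Fin d) (Fin d) ℝ)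
    - Matrix.trace ((h⁻¹ : SLR d) : Matrix (Fin d) (Fin d) ℝ) = 0} = 0 := by
  refine LineSet.measure_zero μ (by omega) lineSet_trace ?_
  intro h
  obtain ⟨x, hx⟩ := trace_ne hd
  exact hx (h.ge (mem_univ x))

/-! ### Commuting elements -/

lemma measure_commute_null (hd : 2 ≤ d) :
    ∀ᵐ x ∂μ, μ {h : SLR d | x * h = h * x} = 0 := by
  have : Nontrivial (Fin d) := Fin.nontrivial_iff_two_le.2 hd
  obtain ⟨i, j, hij⟩ := exists_pair_ne (Fin d)
  set x₁ : SLR d := SpecialLinearGroup.transvection hij 1 with hx₁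
  have hne : x₁ * SpecialLinearGroup.transvection hij.symm 1
      ≠ SpecialLinearGroup.transvection hij.symm 1 * x₁ := by
    intro h
    have h1 := congrArg (fun g : SLR d => (g : Matrix (Fin d) (Fin d) ℝ) i i) h
    simp [hx₁, transvection_coe, mul_add, add_mul, hij, hij.symm] at h1
  have h1 : μ {h : SLR d | x₁ * h = h * x₁} = 0 := by
    refine LineSet.measure_zero μ hd (lineSet_commute x₁) ?_
    intro h
    exact hne (h.ge (mem_univ _))
  have h2 : ∀ᵐ x ∂μ, x ∉ {h : SLR d | x₁ * h = h * x₁} := by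
    rw [ae_iff]
    simpa using h1
  filter_upwards [h2] with x hx
  refine LineSet.measure_zero μ hd (lineSet_commute x) ?_
  intro h
  exact hx (h.ge (mem_univ x₁)).symm

lemma measure_pair_commute_null (hd : 2 ≤ d) (m : ℕ) :
    Measure.pi (fun _ : Fin (m + 2) => μ)
      {g : Fin (m + 2) → SLR d | g 0 * g 1 = g 1 * g 0} = 0 := by
  have h1 := measurePreserving_piFinSuccAbove (fun _ : Fin (m + 2) => μ) 0
  set E : Set (SLR d × (Fin (m + 1) → SLR d)) := {p | p.1 * p.2 0 = p.2 0 * p.1} with hE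
  have hEm : MeasurableSet E := by
    refine IsClosed.measurableSet ?_
    refine isClosed_eq ?_ ?_
    · exact continuous_fst.mul ((_root_.continuous_apply 0).comp continuous_snd)
    · exact ((_root_.continuous_apply 0).comp continuous_snd).mul continuous_fst
  have h2 : {g : Fin (m + 2) → SLR d | g 0 * g 1 = g 1 * g 0}
      = (MeasurableEquiv.piFinSuccAbove (fun _ : Fin (m + 2) => SLR d) 0) ⁻¹' E := by
    ext g
    rfl
  rw [h2, h1.measure_preimage hEm.nullMeasurableSet, Measure.measure_prod_null hEm]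
  filter_upwards [measure_commute_null μ hd] with x hx
  have h3 : Prod.mk x ⁻¹' E = Function.eval 0 ⁻¹' {h : SLR d | x * h = h * x} := by
    ext y
    rfl
  rw [h3]
  exact Measure.pi_eval_preimage_null (fun _ : Fin (m + 1) => μ) hx

/-- Almost every `n`-tuple, `n ≥ 2`, of elements of `SL(d,ℝ)`, `d ≥ 2`, generates an unbounded
group. -/
theorem null_bounded {n : ℕ} (hd : 2 ≤ d) (hn : 2 ≤ n) :
    Measure.pi (fun _ : Fin n => μ) {g : Fin n → SLR d | ∃ B : ℝ,
      ∀ h ∈ Subgroup.closure (Set.range g), ∀ i j,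
        |(h : Matrix (Fin d) (Fin d) ℝ) i j| ≤ B} = 0 := by
  obtain ⟨m, rfl⟩ : ∃ m, n = m + 2 := ⟨n - 2, by omega⟩
  have hform : ∀ g : Fin (m + 2) → SLR d, (∃ B : ℝ,
      ∀ h ∈ Subgroup.closure (Set.range g), ∀ i j,
        |(h : Matrix (Fin d) (Fin d) ℝ) i j| ≤ B) →
      ∃ S : Matrix (Fin d) (Fin d) ℝ, S.PosDef ∧ ∀ j : Fin (m + 2),
        (g j : Matrix (Fin d) (Fin d) ℝ) * S * (g j : Matrix (Fin d) (Fin d) ℝ)ᵀ = S := by
    rintro g ⟨B, hB⟩
    obtain ⟨S, hS, hS2⟩ := exists_invariant_form _ (isCompact_topologicalClosure _ B hB)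
    refine ⟨S, hS, fun j => hS2 _ ?_⟩
    exact Subgroup.le_topologicalClosure _ (Subgroup.subset_closure ⟨j, rfl⟩)
  rcases Nat.lt_or_ge 2 d with hd3 | hd2
  · refine measure_mono_null ?_ (Measure.pi_eval_preimage_null (fun _ : Fin (m + 2) => μ) (i := 0)
      (measure_trace_eq μ hd3))
    intro g hg
    obtain ⟨S, hS, hS2⟩ := hform g hg
    simp only [mem_preimage, Function.eval, mem_ofPred_eq]
    have h1 := hS2 0
    have hu : IsUnit S := hS.isUnit
    have h2 : S * (g 0 : Matrix (Fin d) (Fin d) ℝ)ᵀ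
        = (((g 0)⁻¹ : SLR d) : Matrix (Fin d) (Fin d) ℝ) * S := by
      have h3 : (((g 0)⁻¹ : SLR d) : Matrix (Fin d) (Fin d) ℝ)
          * (g 0 : Matrix (Fin d) (Fin d) ℝ) = 1 := by
        rw [← Matrix.SpecialLinearGroup.coe_mul, inv_mul_cancel, Matrix.SpecialLinearGroup.coe_one]
      calc S * (g 0 : Matrix (Fin d) (Fin d) ℝ)ᵀ
          = ((((g 0)⁻¹ : SLR d) : Matrix (Fin d) (Fin d) ℝ)
            * (g 0 : Matrix (Fin d) (Fin d) ℝ)) * (S * (g 0 : Matrix (Fin d) (Fin d) ℝ)ᵀ) := by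
            rw [h3, Matrix.one_mul]
        _ = (((g 0)⁻¹ : SLR d) : Matrix (Fin d) (Fin d) ℝ)
            * ((g 0 : Matrix (Fin d) (Fin d) ℝ) * S * (g 0 : Matrix (Fin d) (Fin d) ℝ)ᵀ) := by
            simp only [Matrix.mul_assoc]
        _ = _ := by rw [h1]
    obtain ⟨u, hu⟩ := hu
    have h4 : (((g 0)⁻¹ : SLR d) : Matrix (Fin d) (Fin d) ℝ)
        = S * (g 0 : Matrix (Fin d) (Fin d) ℝ)ᵀ * (↑u⁻¹ : Matrix (Fin d) (Fin d) ℝ) := by
      rw [h2, Matrix.mul_assoc, ← hu, Units.mul_inv, Matrix.mul_one]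
    rw [h4, Matrix.trace_mul_comm, ← Matrix.mul_assoc, ← hu, Units.inv_mul, Matrix.one_mul,
      Matrix.trace_transpose, sub_self]
  · obtain rfl : d = 2 := le_antisymm hd2 hd
    refine measure_mono_null ?_ (measure_pair_commute_null μ le_rfl m)
    intro g hg
    obtain ⟨S, hS, hS2⟩ := hform g hg
    exact commute_of_form S hS _ _ (hS2 0) (hS2 1)

end SkewHM
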