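import Pool.Agent.Lib.Skew.Defs

/-!
# The skyscraper formula for good towers
-/

open MeasureTheory Set Filter Topology

open scoped ENNReal

namespace SkewHM

open SkewIET

variable {n : ℕ} {T : ℝ → ℝ} {J : ℝ → Fin n} {c ε : ℝ}

/-- The piece of the base with index `j`. -/
def pc (G : GoodTower T J c ε) (j : Fin n) : Set ℝ := Ico (G.start j) (G.start j + G.width j)

/-- The translation by which `T^i` acts on the piece with index `j`. -/
noncomputable def shf (G : GoodTower T J c ε) (j : Fin n) (i : ℕ) : ℝ :=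
  if h : i ≤ (G.W j).length then (G.trans j i h).choose else 0

lemma shf_spec (G : GoodTower T J c ε) {j : Fin n} {i : ℕ} (hi : i ≤ (G.W j).length) {x : ℝ}
    (hx : x ∈ pc G j) : T^[i] x = x + shf G j i := by
  rw [shf, dif_pos hi]
  exact (G.trans j i hi).choose_spec x hx

/-- The floors. -/
def floorSet (G : GoodTower T J c ε) (j : Fin n) (i : ℕ) : Set ℝ :=
  Ico (G.start j + shf G j i) (G.start j + shf G j i + G.width j)

lemma measurableSet_pc (G : GoodTower T J c ε) (j : Fin n) : MeasurableSet (pc G j) :=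
  measurableSet_Ico

lemma measurableSet_floorSet (G : GoodTower T J c ε) (j : Fin n) (i : ℕ) :
    MeasurableSet (floorSet G j i) := measurableSet_Ico

lemma mem_floorSet (G : GoodTower T J c ε) {j : Fin n} {i : ℕ} (hi : i ≤ (G.W j).length) {y : ℝ} :
    y ∈ floorSet G j i ↔ ∃ x ∈ pc G j, T^[i] x = y := by
  constructor
  · intro hy
    refine ⟨y - shf G j i, ?_, ?_⟩
    · rw [floorSet, mem_Ico] at hy
      rw [pc, mem_Ico]
      constructor <;> linarith [hy.1, hy.2]
    · rw [shf_spec G hi]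
      · ring
      · rw [floorSet, mem_Ico] at hy
        rw [pc, mem_Ico]
        constructor <;> linarith [hy.1, hy.2]
  · rintro ⟨x, hx, rfl⟩
    rw [shf_spec G hi hx]
    rw [pc, mem_Ico] at hx
    rw [floorSet, mem_Ico]
    constructor <;> linarith [hx.1, hx.2]

lemma floorSet_subset (G : GoodTower T J c ε) {j : Fin n} {i : ℕ} (hi : i ≤ (G.W j).length) :
    floorSet G j i ⊆ Ico (0 : ℝ) 1 := by
  intro y hy
  obtain ⟨x, hx, rfl⟩ := (mem_floorSet G hi).1 hy
  exact G.orbit_mem j x hx i hi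

lemma iterate_cancel (G : GoodTower T J c ε) (hinj : InjOn T (Ico (0 : ℝ) 1)) {j j' : Fin n}
    {x x' : ℝ} (hx : x ∈ pc G j) (hx' : x' ∈ pc G j') :
    ∀ i k : ℕ, i ≤ (G.W j).length → i + k ≤ (G.W j').length → T^[i] x = T^[i + k] x' →
      x = T^[k] x' := by
  intro i
  induction i with
  | zero =>
    intro k _ _ h
    simpa using h
  | succ i ih =>
    intro k hi hk h
    refine ih k (by omega) (by omega) ?_
    have h1 : T (T^[i] x) = T (T^[i + k] x') := by
      rw [← Function.iterate_succ_apply' T, ← Function.iterate_succ_apply' T, h]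
      congr 1
      omega
    exact hinj (G.orbit_mem j x hx i (by omega)) (G.orbit_mem j' x' hx' (i + k) (by omega)) h1

lemma floor_inj_aux (G : GoodTower T J c ε) (hinj : InjOn T (Ico (0 : ℝ) 1)) {j j' : Fin n}
    {i i' : ℕ} (hi : i < (G.W j).length) (hi' : i' < (G.W j').length) (hii : i ≤ i')
    {x x' : ℝ} (hx : x ∈ pc G j) (hx' : x' ∈ pc G j') (h : T^[i] x = T^[i'] x') :
    i = i' ∧ x = x' := by
  obtain ⟨k, rfl⟩ := Nat.exists_eq_add_of_le hii
  have h1 := iterate_cancel G hinj hx hx' i k hi.le hi'.le h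
  rcases Nat.eq_zero_or_pos k with rfl | hk
  · exact ⟨rfl, by simpa using h1⟩
  · exfalso
    refine G.first_ret j' x' hx' k hk (by omega) ?_
    rw [← h1]
    exact G.piece_sub j hx

lemma floor_inj (G : GoodTower T J c ε) (hinj : InjOn T (Ico (0 : ℝ) 1)) {j j' : Fin n}
    {i i' : ℕ} (hi : i < (G.W j).length) (hi' : i' < (G.W j').length)
    {x x' : ℝ} (hx : x ∈ pc G j) (hx' : x' ∈ pc G j') (h : T^[i] x = T^[i'] x') :
    i = i' ∧ x = x' := by
  rcases le_total i i' with hii | hii
  · exact floor_inj_aux G hinj hi hi' hii hx hx' h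
  · have := floor_inj_aux G hinj hi' hi hii hx' hx h.symm
    exact ⟨this.1.symm, this.2.symm⟩

/-- The index type of the floors. -/
abbrev FloorIdx (G : GoodTower T J c ε) := (j : Fin n) × Fin (G.W j).length

lemma pairwise_disjoint_floors (G : GoodTower T J c ε) (hinj : InjOn T (Ico (0 : ℝ) 1)) :
    Pairwise (Function.onFun Disjoint fun p : FloorIdx G => floorSet G p.1 p.2) := by
  rintro ⟨j, i⟩ ⟨j', i'⟩ hne
  rw [Function.onFun, Set.disjoint_left]
  intro y hy hy'
  obtain ⟨x, hx, hxy⟩ := (mem_floorSet G i.2.le).1 hy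
  obtain ⟨x', hx', hxy'⟩ := (mem_floorSet G i'.2.le).1 hy'
  obtain ⟨h1, h2⟩ := floor_inj G hinj i.2 i'.2 hx hx' (hxy.trans hxy'.symm)
  have hj : j = j' := by
    by_contra hjj
    subst h2
    exact Set.disjoint_left.1 (G.disj j j' hjj) hx hx'
  subst hj
  exact hne (by
    have : i = i' := Fin.ext h1
    rw [this])

lemma volume_floorSet (G : GoodTower T J c ε) (j : Fin n) (i : ℕ) :
    volume (floorSet G j i) = ENNReal.ofReal (G.width j) := by
  rw [floorSet, Real.volume_Ico]
  congr 1
  ring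

lemma ae_eq_floors (G : GoodTower T J c ε) (hinj : InjOn T (Ico (0 : ℝ) 1)) :
    (⋃ p : FloorIdx G, floorSet G p.1 p.2) =ᵐ[volume] Ico (0 : ℝ) 1 := by
  refine ae_eq_of_subset_of_measure_ge ?_ ?_ ?_ ?_
  · exact iUnion_subset fun p => floorSet_subset G p.2.2.le
  · rw [measure_iUnion (pairwise_disjoint_floors G hinj) fun p => measurableSet_floorSet G _ _]
    simp only [volume_floorSet, tsum_fintype]
    rw [← ENNReal.ofReal_sum_of_nonneg fun p _ => (G.width_pos p.1).le]
    rw [Real.volume_Ico]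
    refine ENNReal.ofReal_le_ofReal ?_
    have : ∑ p : FloorIdx G, G.width p.1 = 1 := by
      rw [Fintype.sum_sigma]
      simp only [Finset.sum_const, Finset.card_univ, Fintype.card_fin, nsmul_eq_mul]
      exact G.total
    rw [this]
    simp
  · exact (MeasurableSet.iUnion fun p => measurableSet_floorSet G _ _).nullMeasurableSet
  · simp

lemma lintegral_floorSet (G : GoodTower T J c ε) {j : Fin n} {i : ℕ} (hi : i ≤ (G.W j).length)
    (φ : ℝ → ℝ≥0∞) :
    ∫⁻ x in floorSet G j i, φ x = ∫⁻ x in pc G j, φ (T^[i] x) := by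
  have h1 : ∫⁻ x in pc G j, φ (T^[i] x) = ∫⁻ x in pc G j, φ (x + shf G j i) := by
    refine setLIntegral_congr_fun (measurableSet_pc G j) fun x hx => ?_
    simp only [shf_spec G hi hx]
  have h2 : pc G j = (fun x => x + shf G j i) ⁻¹' (floorSet G j i) := by
    ext x
    rw [pc, floorSet, mem_preimage, mem_Ico, mem_Ico]
    constructor
    · rintro ⟨a, b⟩
      constructor <;> linarith
    · rintro ⟨a, b⟩
      constructor <;> linarith
  rw [h1, h2]
  have h3 : MeasurePreserving (fun x : ℝ => x + shf G j i) volume volume :=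
    measurePreserving_add_right volume _
  exact (h3.setLIntegral_comp_preimage_emb (measurableEmbedding_addRight _) φ _).symm

/-- The skyscraper formula. -/
theorem lintegral_skyscraper (G : GoodTower T J c ε) (hinj : InjOn T (Ico (0 : ℝ) 1))
    (φ : ℝ → ℝ≥0∞) :
    ∫⁻ x in Ico (0 : ℝ) 1, φ x
      = ∑ j, ∑ i ∈ Finset.range (G.W j).length, ∫⁻ x in pc G j, φ (T^[i] x) := by
  rw [← Measure.restrict_congr_set (ae_eq_floors G hinj),
    lintegral_iUnion (fun p => measurableSet_floorSet G _ _) (pairwise_disjoint_floors G hinj),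
    tsum_fintype, Fintype.sum_sigma]
  refine Finset.sum_congr rfl fun j _ => ?_
  rw [Finset.sum_range]
  refine Finset.sum_congr rfl fun i _ => ?_
  exact lintegral_floorSet G i.2.le φ

lemma iUnion_pc (G : GoodTower T J c ε) : (⋃ j, pc G j) = Ico (0 : ℝ) G.len := by
  ext x
  rw [mem_iUnion]
  constructor
  · rintro ⟨j, hj⟩
    exact G.piece_sub j hj
  · intro hx
    exact G.cover x hx

lemma pairwise_disjoint_pc (G : GoodTower T J c ε) :
    Pairwise (Function.onFun Disjoint (pc G)) := fun i j hij => G.disj i j hij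

lemma lintegral_base (G : GoodTower T J c ε) (φ : ℝ → ℝ≥0∞) :
    ∫⁻ x in Ico (0 : ℝ) G.len, φ x = ∑ j, ∫⁻ x in pc G j, φ x := by
  rw [← iUnion_pc G, lintegral_iUnion (fun j => measurableSet_pc G j) (pairwise_disjoint_pc G),
    tsum_fintype]

/-- The formula for the rigid floors. -/
theorem lintegral_rigid_le (G : GoodTower T J c ε) (hinj : InjOn T (Ico (0 : ℝ) 1))
    (φ : ℝ → ℝ≥0∞) :
    ∑ i ∈ Finset.range G.N, ∫⁻ x in Ico (0 : ℝ) G.len, φ (T^[i] x)
      ≤ ∫⁻ x in Ico (0 : ℝ) 1, φ x := by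
  rw [lintegral_skyscraper G hinj]
  simp only [lintegral_base G]
  rw [Finset.sum_comm]
  refine Finset.sum_le_sum fun j _ => ?_
  refine Finset.sum_le_sum_of_subset ?_
  exact Finset.range_subset_range.2 (G.N_le j)

lemma N_mul_len_le (G : GoodTower T J c ε) (hinj : InjOn T (Ico (0 : ℝ) 1)) :
    (G.N : ℝ≥0∞) * ENNReal.ofReal G.len ≤ 1 := by
  have := lintegral_rigid_le G hinj (fun _ => 1)
  simpa using this

end SkewHM
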