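import Mathlib

/-!
# From invariant functions on a product to ergodicity of almost every slice
-/

open MeasureTheory Set Filter Topology

open scoped ENNReal symmDiff

namespace SkewHM

section MeanErgodic

variable {X : Type*} [MeasurableSpace X] {ν : Measure X}

/-- The mean ergodic theorem of von Neumann, in terms of functions. -/
lemma mean_ergodic_fun (R : X → X) (hR : MeasurePreserving R ν ν) (h : X → ℝ)
    (hh : MemLp h 2 ν) :
    ∃ Φ : X → ℝ, Measurable Φ ∧ MemLp Φ 2 ν ∧ (∀ᵐ p ∂ν, Φ (R p) = Φ p) ∧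
      Tendsto (fun N : ℕ => eLpNorm (fun p => (N : ℝ)⁻¹ * (∑ k ∈ Finset.range N, h (R^[k] p))
        - Φ p) 2 ν) atTop (𝓝 0) := by
  let K : Lp ℝ 2 ν →ₗᵢ[ℝ] Lp ℝ 2 ν := Lp.compMeasurePreservingₗᵢ ℝ R hR
  have hKapp : ∀ z : Lp ℝ 2 ν, K z = Lp.compMeasurePreserving R hR z := fun z => rfl
  let x : Lp ℝ 2 ν := hh.toLp h
  have hlim := ContinuousLinearMap.tendsto_birkhoffAverage_orthogonalProjection
    K.toContinuousLinearMap K.norm_toContinuousLinearMap_le x
  set y := (K.toContinuousLinearMap.eqLocus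
    (1 : Lp ℝ 2 ν →L[ℝ] Lp ℝ 2 ν)).orthogonalProjectionOnto x with hy
  have hfix : K (y : Lp ℝ 2 ν) = (y : Lp ℝ 2 ν) := y.2
  have hiter : ∀ k : ℕ, ((K.toContinuousLinearMap)^[k] x : Lp ℝ 2 ν)
      = (hh.comp_measurePreserving (hR.iterate k)).toLp _ := by
    intro k
    induction k with
    | zero => rfl
    | succ k ih =>
      rw [Function.iterate_succ_apply', ih]
      exact Lp.toLp_compMeasurePreserving (hh.comp_measurePreserving (hR.iterate k)) hR
  refine ⟨(y : Lp ℝ 2 ν), (Lp.stronglyMeasurable _).measurable, Lp.memLp _, ?_, ?_⟩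
  · have h1 := Lp.coeFn_compMeasurePreserving (y : Lp ℝ 2 ν) hR
    rw [← hKapp, hfix] at h1
    filter_upwards [h1] with p hp
    exact hp.symm
  · have h2 : ∀ N : ℕ, eLpNorm (fun p => (N : ℝ)⁻¹ * (∑ k ∈ Finset.range N, h (R^[k] p))
        - (y : Lp ℝ 2 ν) p) 2 ν
        = ENNReal.ofReal ‖birkhoffAverage ℝ K.toContinuousLinearMap id N x - (y : Lp ℝ 2 ν)‖ := by
      intro N
      have h3 : ⇑(birkhoffAverage ℝ K.toContinuousLinearMap id N x - (y : Lp ℝ 2 ν))
          =ᵐ[ν] fun p => (N : ℝ)⁻¹ * (∑ k ∈ Finset.range N, h (R^[k] p))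
            - (y : Lp ℝ 2 ν) p := by
        have h4 : birkhoffAverage ℝ K.toContinuousLinearMap id N x
            = (N : ℝ)⁻¹ • ∑ k ∈ Finset.range N,
              (hh.comp_measurePreserving (hR.iterate k)).toLp (h ∘ R^[k]) := by
          rw [birkhoffAverage, birkhoffSum]
          congr 1
          refine Finset.sum_congr rfl fun k _ => ?_
          exact hiter k
        rw [h4]
        have h5 : ∀ᵐ p ∂ν, ∀ k ∈ Finset.range N,
            ((hh.comp_measurePreserving (hR.iterate k)).toLp (h ∘ R^[k]) : X → ℝ) p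
              = h (R^[k] p) := by
          rw [Filter.eventually_all_finset]
          intro k _
          exact (hh.comp_measurePreserving (hR.iterate k)).coeFn_toLp
        filter_upwards [Lp.coeFn_sub ((N : ℝ)⁻¹ • ∑ k ∈ Finset.range N,
              (hh.comp_measurePreserving (hR.iterate k)).toLp (h ∘ R^[k])) (y : Lp ℝ 2 ν),
          Lp.coeFn_smul (N : ℝ)⁻¹ (∑ k ∈ Finset.range N,
              (hh.comp_measurePreserving (hR.iterate k)).toLp (h ∘ R^[k])),
          Lp.coeFn_finsetSum (Finset.range N) (fun k =>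
              (hh.comp_measurePreserving (hR.iterate k)).toLp (h ∘ R^[k])), h5]
          with p h6 h7 h8 h9
        rw [h6, Pi.sub_apply, h7, Pi.smul_apply, h8, smul_eq_mul]
        congr 2
        rw [Finset.sum_apply]
        exact Finset.sum_congr rfl fun k hk => h9 k hk
      rw [Lp.norm_def, ENNReal.ofReal_toReal (Lp.eLpNorm_ne_top _)]
      exact (eLpNorm_congr_ae h3).symm
    simp only [h2]
    have h3 : Tendsto (fun N => ‖birkhoffAverage ℝ K.toContinuousLinearMap id N x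
        - (y : Lp ℝ 2 ν)‖) atTop (𝓝 0) := by
      exact tendsto_iff_norm_sub_tendsto_zero.1 hlim
    have h4 := (ENNReal.continuous_ofReal.tendsto 0).comp h3
    rw [ENNReal.ofReal_zero] at h4
    exact h4

end MeanErgodic

section Fibers

variable {U Z : Type*}

lemma skew_iterate (S : U × Z → Z) (k : ℕ) (u : U) (z : Z) :
    (fun p : U × Z => (p.1, S p))^[k] (u, z) = (u, (fun z => S (u, z))^[k] z) := by
  induction k generalizing z with
  | zero => rfl
  | succ k ih =>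
    rw [Function.iterate_succ_apply, Function.iterate_succ_apply, ih]

variable [MeasurableSpace U] [MeasurableSpace Z]

lemma measurePreserving_skew (ρ : Measure U) [SFinite ρ] (ζ : Measure Z) [SFinite ζ]
    (S : U × Z → Z) (hS : Measurable S)
    (hmp : ∀ u, MeasurePreserving (fun z => S (u, z)) ζ ζ) :
    MeasurePreserving (fun p : U × Z => (p.1, S p)) (ρ.prod ζ) (ρ.prod ζ) :=
  (MeasurePreserving.id ρ).skew_product (g := fun u z => S (u, z)) hS
    (Eventually.of_forall fun u => (hmp u).map_eq)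

/-- The averages of the indicator function of `B` along the slices. -/
noncomputable def avg (S : U × Z → Z) (B : Set Z) (u : U) (N : ℕ) (z : Z) : ℝ :=
  (N : ℝ)⁻¹ * ∑ k ∈ Finset.range N, B.indicator (1 : Z → ℝ) ((fun z => S (u, z))^[k] z)

lemma measurable_avg (S : U × Z → Z) (hS : Measurable S) {B : Set Z} (hB : MeasurableSet B)
    (N : ℕ) : Measurable fun p : U × Z => avg S B p.1 N p.2 := by
  unfold avg
  refine measurable_const.mul (Finset.measurable_fun_sum _ fun k _ => ?_)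
  have h1 : Measurable ((fun p : U × Z => (p.1, S p))^[k]) :=
    (measurable_fst.prodMk hS).iterate k
  have h2 : (fun p : U × Z => B.indicator (1 : Z → ℝ) ((fun z => S (p.1, z))^[k] p.2))
      = fun p => B.indicator (1 : Z → ℝ) ((fun p : U × Z => (p.1, S p))^[k] p).2 := by
    funext p
    rw [show p = (p.1, p.2) from rfl, skew_iterate]
  rw [h2]
  exact (measurable_one.indicator hB).comp (measurable_snd.comp h1)

/-- For a set of finite measure of parameters. -/
lemma slice_average_aux (ρ : Measure U) [SigmaFinite ρ] (ζ : Measure Z) [IsProbabilityMeasure ζ]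
    (S : U × Z → Z) (hS : Measurable S)
    (hmp : ∀ u, MeasurePreserving (fun z => S (u, z)) ζ ζ)
    (hinv : ∀ Φ : U × Z → ℝ, Measurable Φ → MemLp Φ 2 (ρ.prod ζ) →
      (∀ᵐ p ∂(ρ.prod ζ), Φ (p.1, S p) = Φ p) →
      ∃ κ : U → ℝ, Measurable κ ∧ ∀ᵐ p ∂(ρ.prod ζ), Φ p = κ p.1)
    (E : Set U) (hE : MeasurableSet E) (hEf : ρ E ≠ ∞) (B : Set Z) (hB : MeasurableSet B) :
    ∀ᵐ u ∂(ρ.restrict E), ∃ γ : ℝ, ∀ δ : ℝ≥0∞, 0 < δ → ∃ N : ℕ, 0 < N ∧
      ∫⁻ z, ‖avg S B u N z - γ‖ₑ ∂ζ ≤ δ := by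
  set R : U × Z → U × Z := fun p => (p.1, S p) with hRdef
  have hR : MeasurePreserving R (ρ.prod ζ) (ρ.prod ζ) := measurePreserving_skew ρ ζ S hS hmp
  set h : U × Z → ℝ := (E ×ˢ B).indicator 1 with hh
  have hEB : MeasurableSet (E ×ˢ B) := hE.prod hB
  have hmem : MemLp h 2 (ρ.prod ζ) := by
    refine memLp_indicator_const 2 hEB (1 : ℝ) (Or.inr ?_)
    rw [Measure.prod_prod]
    exact ENNReal.mul_ne_top hEf (measure_ne_top _ _)
  obtain ⟨Φ, hΦm, hΦ2, hΦi, hlim⟩ := mean_ergodic_fun R hR h hmem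
  obtain ⟨κ, hκm, hκ⟩ := hinv Φ hΦm hΦ2 hΦi
  -- the averages
  have havg : ∀ N : ℕ, ∀ u ∈ E, ∀ z, (N : ℝ)⁻¹ * (∑ k ∈ Finset.range N, h (R^[k] (u, z)))
      = avg S B u N z := by
    intro N u hu z
    unfold avg
    congr 1
    refine Finset.sum_congr rfl fun k _ => ?_
    rw [hRdef, skew_iterate, hh]
    by_cases hz : (fun z => S (u, z))^[k] z ∈ B
    · rw [indicator_of_mem hz, indicator_of_mem (mk_mem_prod hu hz)]
      rfl
    · rw [indicator_of_notMem hz, indicator_of_notMem]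
      exact fun h => hz h.2
  have hEZ : MeasurableSet (E ×ˢ (univ : Set Z)) := hE.prod MeasurableSet.univ
  have hprod : (ρ.restrict E).prod ζ = (ρ.prod ζ).restrict (E ×ˢ univ) := by
    rw [← Measure.prod_restrict, Measure.restrict_univ]
  have hfin : IsFiniteMeasure (ρ.restrict E) := ⟨by simpa using hEf.lt_top⟩
  -- convergence in `L¹` on `E × Z`
  have h1 : Tendsto (fun N : ℕ => ∫⁻ u in E, ∫⁻ z, ‖avg S B u N z - κ u‖ₑ ∂ζ ∂ρ) atTop
      (𝓝 0) := by
    have h2 : ∀ N : ℕ, ∫⁻ u in E, ∫⁻ z, ‖avg S B u N z - κ u‖ₑ ∂ζ ∂ρ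
        ≤ eLpNorm (fun p => (N : ℝ)⁻¹ * (∑ k ∈ Finset.range N, h (R^[k] p)) - Φ p) 2 (ρ.prod ζ)
          * ((ρ.restrict E).prod ζ univ) ^ (1 - 1 / (2 : ℝ)) := by
      intro N
      have h3 : ∫⁻ u in E, ∫⁻ z, ‖avg S B u N z - κ u‖ₑ ∂ζ ∂ρ
          = eLpNorm (fun p : U × Z => (N : ℝ)⁻¹ * (∑ k ∈ Finset.range N, h (R^[k] p)) - Φ p) 1
            ((ρ.restrict E).prod ζ) := by
        rw [eLpNorm_one_eq_lintegral_enorm]
        have h4 : Measurable fun p : U × Z => ‖avg S B p.1 N p.2 - κ p.1‖ₑ :=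
          ((measurable_avg S hS hB N).sub (hκm.comp measurable_fst)).enorm
        rw [← lintegral_prod (fun p : U × Z => ‖avg S B p.1 N p.2 - κ p.1‖ₑ) h4.aemeasurable]
        refine lintegral_congr_ae ?_
        rw [hprod]
        rw [EventuallyEq, ae_restrict_iff' hEZ]
        filter_upwards [hκ] with p hp hpE
        rw [show p = (p.1, p.2) from rfl, havg N p.1 hpE.1 p.2]
        simp only
        rw [show (p.1, p.2) = p from rfl, hp]
      rw [h3]
      have hmeas : AEStronglyMeasurable (fun p : U × Z =>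
          (N : ℝ)⁻¹ * (∑ k ∈ Finset.range N, h (R^[k] p)) - Φ p) ((ρ.restrict E).prod ζ) := by
        refine Measurable.aestronglyMeasurable ?_
        refine (measurable_const.mul (Finset.measurable_fun_sum _ fun k _ => ?_)).sub hΦm
        exact (measurable_one.indicator hEB).comp (hR.measurable.iterate k)
      have h5 := eLpNorm_le_eLpNorm_mul_rpow_measure_univ (p := 1) (q := 2)
        (by norm_num) hmeas
      refine h5.trans ?_
      have h6 : (1 / (1 : ℝ≥0∞).toReal - 1 / (2 : ℝ≥0∞).toReal) = 1 - 1 / (2 : ℝ) := by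
        simp
      rw [h6]
      gcongr
      exact Measure.restrict_le_self
    refine tendsto_of_tendsto_of_tendsto_of_le_of_le tendsto_const_nhds ?_ (fun _ => zero_le)
      h2
    have h7 := ENNReal.Tendsto.mul_const (b := ((ρ.restrict E).prod ζ univ) ^ (1 - 1 / (2 : ℝ)))
      hlim (Or.inr (by
        refine ENNReal.rpow_ne_top_of_nonneg (by norm_num) ?_
        exact measure_ne_top _ _))
    simpa using h7
  -- Fatou
  have h2 : ∫⁻ u in E, liminf (fun N : ℕ => ∫⁻ z, ‖avg S B u N z - κ u‖ₑ ∂ζ) atTop ∂ρ = 0 := by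
    refine le_antisymm ?_ bot_le
    refine (lintegral_liminf_le fun N => ?_).trans ?_
    · have h4 : Measurable fun p : U × Z => ‖avg S B p.1 N p.2 - κ p.1‖ₑ :=
          ((measurable_avg S hS hB N).sub (hκm.comp measurable_fst)).enorm
      exact h4.lintegral_prod_right'
    · rw [h1.liminf_eq]
  rw [lintegral_eq_zero_iff] at h2
  · filter_upwards [h2] with u hu
    refine ⟨κ u, fun δ hδ => ?_⟩
    have h3 : liminf (fun N : ℕ => ∫⁻ z, ‖avg S B u N z - κ u‖ₑ ∂ζ) atTop < δ := by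
      rw [hu]
      exact hδ
    have h4 := frequently_lt_of_liminf_lt (by isBoundedDefault) h3
    obtain ⟨N, hN1, hN2⟩ := (h4.and_eventually (eventually_gt_atTop 0)).exists
    exact ⟨N, hN2, hN1.le⟩
  · refine Measurable.liminf fun N => ?_
    have h4 : Measurable fun p : U × Z => ‖avg S B p.1 N p.2 - κ p.1‖ₑ :=
          ((measurable_avg S hS hB N).sub (hκm.comp measurable_fst)).enorm
    exact h4.lintegral_prod_right'

/-- An invariant set which can be approximated by sets with almost constant averages is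
trivial. -/
lemma trivial_of_average (ζ : Measure Z) [IsProbabilityMeasure ζ] (R : Z → Z)
    (hR : MeasurePreserving R ζ ζ) {A : Set Z} (hA : MeasurableSet A) (hAi : R ⁻¹' A = A)
    (h : ∀ δ : ℝ≥0∞, 0 < δ → ∃ B : Set Z, MeasurableSet B ∧ ζ (A ∆ B) ≤ δ ∧ ∃ γ : ℝ, ∃ N : ℕ,
      0 < N ∧ ∫⁻ z, ‖(N : ℝ)⁻¹ * (∑ k ∈ Finset.range N, B.indicator (1 : Z → ℝ) (R^[k] z))
        - γ‖ₑ ∂ζ ≤ δ) :
    ζ A = 0 ∨ ζ Aᶜ = 0 := by
  have key : ∀ δ : ℝ≥0∞, 0 < δ → min (ζ A) (ζ Aᶜ) ≤ 2 * δ := by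
    intro δ hδ
    obtain ⟨B, hB, hAB, γ, N, hN, hint⟩ := h δ hδ
    have hmeasA : Measurable (A.indicator (1 : Z → ℝ)) := measurable_one.indicator hA
    have hmeasB : Measurable (B.indicator (1 : Z → ℝ)) := measurable_one.indicator hB
    -- invariance
    have hinv : ∀ k : ℕ, ∀ z, A.indicator (1 : Z → ℝ) (R^[k] z) = A.indicator 1 z := by
      intro k z
      have h1 : ∀ k : ℕ, ∀ z, R^[k] z ∈ A ↔ z ∈ A := by
        intro k
        induction k with
        | zero => intro z; rfl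
        | succ k ih =>
          intro z
          rw [Function.iterate_succ_apply, ih, ← mem_preimage, hAi]
      by_cases hz : z ∈ A
      · rw [indicator_of_mem hz, indicator_of_mem ((h1 k z).2 hz)]
        rfl
      · rw [indicator_of_notMem hz, indicator_of_notMem fun h => hz ((h1 k z).1 h)]
    -- lower bound
    have h1 : min (ζ A) (ζ Aᶜ) ≤ ∫⁻ z, ‖A.indicator (1 : Z → ℝ) z - γ‖ₑ ∂ζ := by
      have h2 : ∫⁻ z, ‖A.indicator (1 : Z → ℝ) z - γ‖ₑ ∂ζ
          = ζ A * ‖(1 : ℝ) - γ‖ₑ + ζ Aᶜ * ‖γ‖ₑ := by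
        rw [← lintegral_add_compl _ hA]
        congr 1
        · rw [setLIntegral_congr_fun (g := fun _ => ‖(1 : ℝ) - γ‖ₑ) hA]
          · rw [setLIntegral_const, mul_comm]
          · intro x hx
            simp [indicator_of_mem hx]
        · rw [setLIntegral_congr_fun (g := fun _ => ‖γ‖ₑ) hA.compl]
          · rw [setLIntegral_const, mul_comm]
          · intro x hx
            simp [indicator_of_notMem hx]
      rw [h2]
      have h3 : (1 : ℝ≥0∞) ≤ ‖(1 : ℝ) - γ‖ₑ + ‖γ‖ₑ := by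
        have := enorm_add_le ((1 : ℝ) - γ) γ
        simpa using this
      calc min (ζ A) (ζ Aᶜ) = min (ζ A) (ζ Aᶜ) * 1 := by rw [mul_one]
        _ ≤ min (ζ A) (ζ Aᶜ) * (‖(1 : ℝ) - γ‖ₑ + ‖γ‖ₑ) := by gcongr
        _ = min (ζ A) (ζ Aᶜ) * ‖(1 : ℝ) - γ‖ₑ + min (ζ A) (ζ Aᶜ) * ‖γ‖ₑ := by rw [mul_add]
        _ ≤ ζ A * ‖(1 : ℝ) - γ‖ₑ + ζ Aᶜ * ‖γ‖ₑ := by
          gcongr
          · exact min_le_left _ _
          · exact min_le_right _ _
    -- difference of `A` and the averages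
    have h4 : ∫⁻ z, ‖A.indicator (1 : Z → ℝ) z
        - (N : ℝ)⁻¹ * (∑ k ∈ Finset.range N, B.indicator (1 : Z → ℝ) (R^[k] z))‖ₑ ∂ζ ≤ δ := by
      have h5 : ∀ z, ‖A.indicator (1 : Z → ℝ) z
        - (N : ℝ)⁻¹ * (∑ k ∈ Finset.range N, B.indicator (1 : Z → ℝ) (R^[k] z))‖ₑ
        ≤ ENNReal.ofReal ((N : ℝ)⁻¹) * ∑ k ∈ Finset.range N,
          ‖A.indicator (1 : Z → ℝ) (R^[k] z) - B.indicator 1 (R^[k] z)‖ₑ := by
        intro z
        have hN0 : (N : ℝ) ≠ 0 := by positivity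
        have h6 : A.indicator (1 : Z → ℝ) z
            - (N : ℝ)⁻¹ * (∑ k ∈ Finset.range N, B.indicator (1 : Z → ℝ) (R^[k] z))
            = (N : ℝ)⁻¹ * ∑ k ∈ Finset.range N,
              (A.indicator (1 : Z → ℝ) (R^[k] z) - B.indicator 1 (R^[k] z)) := by
          rw [Finset.sum_sub_distrib, mul_sub]
          congr 1
          simp only [hinv, Finset.sum_const, Finset.card_range, nsmul_eq_mul]
          field_simp
        rw [h6, enorm_mul]
        gcongr
        · rw [Real.enorm_eq_ofReal_abs, abs_of_nonneg (by positivity)]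
        · exact enorm_sum_le _ _
      refine (lintegral_mono h5).trans ?_
      rw [lintegral_const_mul' _ _ ENNReal.ofReal_ne_top]
      rw [lintegral_finsetSum' _ fun k _ => ?_]
      · have h7 : ∀ k ∈ Finset.range N, ∫⁻ z, ‖A.indicator (1 : Z → ℝ) (R^[k] z)
            - B.indicator 1 (R^[k] z)‖ₑ ∂ζ ≤ δ := by
          intro k _
          rw [(hR.iterate k).lintegral_comp (f := fun z => ‖A.indicator (1 : Z → ℝ) z
            - B.indicator 1 z‖ₑ) (hmeasA.sub hmeasB).enorm]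
          refine le_trans ?_ hAB
          rw [← lintegral_indicator_one (hA.symmDiff hB)]
          refine lintegral_mono fun z => ?_
          by_cases hzA : z ∈ A <;> by_cases hzB : z ∈ B
          · simp [hzA, hzB]
          · have : z ∈ A ∆ B := Or.inl ⟨hzA, hzB⟩
            simp [hzA, hzB, indicator_of_mem this]
          · have : z ∈ A ∆ B := Or.inr ⟨hzB, hzA⟩
            simp [hzA, hzB, indicator_of_mem this]
          · simp [hzA, hzB]
        refine (mul_le_mul_right (Finset.sum_le_sum h7) _).trans ?_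
        rw [Finset.sum_const, Finset.card_range, nsmul_eq_mul, ← mul_assoc,
          ENNReal.ofReal_inv_of_pos (by positivity), ENNReal.ofReal_natCast,
          ENNReal.inv_mul_cancel (by simpa using hN.ne') (by simp), one_mul]
      · exact ((hmeasA.sub hmeasB).enorm.comp (hR.iterate k).measurable).aemeasurable
    calc min (ζ A) (ζ Aᶜ) ≤ ∫⁻ z, ‖A.indicator (1 : Z → ℝ) z - γ‖ₑ ∂ζ := h1
      _ ≤ ∫⁻ z, (‖A.indicator (1 : Z → ℝ) z
        - (N : ℝ)⁻¹ * (∑ k ∈ Finset.range N, B.indicator (1 : Z → ℝ) (R^[k] z))‖ₑ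
        + ‖(N : ℝ)⁻¹ * (∑ k ∈ Finset.range N, B.indicator (1 : Z → ℝ) (R^[k] z)) - γ‖ₑ) ∂ζ := by
          refine lintegral_mono fun z => ?_
          refine le_trans (le_of_eq ?_) (enorm_add_le _ _)
          congr 1
          ring
      _ = _ := by
          rw [lintegral_add_left]
          refine (hmeasA.sub (measurable_const.mul
            (Finset.measurable_fun_sum _ fun k _ => ?_))).enorm
          exact hmeasB.comp (hR.iterate k).measurable
      _ ≤ δ + δ := add_le_add h4 hint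
      _ = 2 * δ := by ring
  have hmin : min (ζ A) (ζ Aᶜ) = 0 := by
    by_contra hne
    have hpos : 0 < min (ζ A) (ζ Aᶜ) := pos_iff_ne_zero.2 hne
    have hfin : min (ζ A) (ζ Aᶜ) ≠ ∞ := ne_top_of_le_ne_top (measure_ne_top ζ A) (min_le_left _ _)
    have h1 := key (min (ζ A) (ζ Aᶜ) / 4) (ENNReal.div_pos hne (by simp))
    have h2 : 2 * (min (ζ A) (ζ Aᶜ) / 4) = min (ζ A) (ζ Aᶜ) / 2 := by
      rw [← mul_div_assoc, mul_comm, ENNReal.div_eq_div_iff (by simp) (by simp) (by simp) (by simp)]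
      ring
    rw [h2] at h1
    exact absurd h1 (not_le.2 (ENNReal.half_lt_self hne hfin))
  rcases min_eq_iff.1 hmin with h1 | h1
  · exact Or.inl h1.1
  · exact Or.inr h1.1

/-- If all the square integrable invariant functions of the skew product over the parameter
space are functions of the parameter, then almost every slice is ergodic. -/
theorem ergodic_of_invariant [MeasurableSpace.CountablyGenerated Z]
    (ρ : Measure U) [SigmaFinite ρ] (ζ : Measure Z) [IsProbabilityMeasure ζ]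
    (S : U × Z → Z) (hS : Measurable S)
    (hmp : ∀ u, MeasurePreserving (fun z => S (u, z)) ζ ζ)
    (hinv : ∀ Φ : U × Z → ℝ, Measurable Φ → MemLp Φ 2 (ρ.prod ζ) →
      (∀ᵐ p ∂(ρ.prod ζ), Φ (p.1, S p) = Φ p) →
      ∃ κ : U → ℝ, Measurable κ ∧ ∀ᵐ p ∂(ρ.prod ζ), Φ p = κ p.1) :
    ∀ᵐ u ∂ρ, Ergodic (fun z => S (u, z)) ζ := by
  obtain ⟨𝒜, h𝒜c, h𝒜⟩ := exists_countable_measureDense ζ
  have h1 : ∀ᵐ u ∂ρ, ∀ m : ℕ, u ∈ spanningSets ρ m → ∀ B ∈ 𝒜, ∃ γ : ℝ, ∀ δ : ℝ≥0∞, 0 < δ →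
      ∃ N : ℕ, 0 < N ∧ ∫⁻ z, ‖avg S B u N z - γ‖ₑ ∂ζ ≤ δ := by
    rw [ae_all_iff]
    intro m
    have hm := measurableSet_spanningSets ρ m
    rw [← ae_restrict_iff' hm]
    rw [ae_ball_iff h𝒜c]
    intro B hB
    exact slice_average_aux ρ ζ S hS hmp hinv _ hm (measure_spanningSets_lt_top ρ m).ne B
      (h𝒜.measurable B hB)
  filter_upwards [h1] with u hu
  refine ⟨hmp u, ⟨fun A hA hAi => ?_⟩⟩
  have hmem := mem_spanningSetsIndex ρ u
  have h2 : ζ A = 0 ∨ ζ Aᶜ = 0 := by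
    refine trivial_of_average ζ (fun z => S (u, z)) (hmp u) hA hAi fun δ hδ => ?_
    obtain ⟨ε, hε, hεδ⟩ : ∃ ε : ℝ, 0 < ε ∧ ENNReal.ofReal ε ≤ δ := by
      rcases eq_or_ne δ ∞ with rfl | hδt
      · exact ⟨1, one_pos, le_top⟩
      · exact ⟨δ.toReal, ENNReal.toReal_pos hδ.ne' hδt, by rw [ENNReal.ofReal_toReal hδt]⟩
    obtain ⟨B, hB, hAB⟩ := h𝒜.approx A hA (measure_ne_top _ _) ε hε
    obtain ⟨γ, hγ⟩ := hu _ hmem B hB
    obtain ⟨N, hN, hint⟩ := hγ δ hδ
    exact ⟨B, h𝒜.measurable B hB, hAB.le.trans hεδ, γ, N, hN, hint⟩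
  rw [eventuallyConst_set]
  rcases h2 with h2 | h2
  · right
    exact measure_eq_zero_iff_ae_notMem.1 h2
  · left
    exact h2

end Fibers

end SkewHM
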