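import Pool.Agent.Lib.Helper20.Skew.Skyscraper

/-!
# A map with arbitrarily fine good towers is ergodic
-/

open MeasureTheory Set Filter Topology

open scoped ENNReal

namespace SkewHM

open SkewIET

variable {n : ℕ} {T : ℝ → ℝ} {J : ℝ → Fin n} {c ε : ℝ}

lemma iterate_mem_iff {A : Set ℝ} (hA : T ⁻¹' A = A) (i : ℕ) (x : ℝ) :
    T^[i] x ∈ A ↔ x ∈ A := by
  induction i generalizing x with
  | zero => simp
  | succ i ih =>
    rw [Function.iterate_succ_apply, ih]
    rw [← mem_preimage, hA]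

lemma length_le_ofReal (hc : 0 < c) (G : GoodTower T J c ε) (j : Fin n) :
    ((G.W j).length : ℝ≥0∞) ≤ ENNReal.ofReal (1 / c) * (G.N : ℝ≥0∞) := by
  have h1 : ((G.W j).length : ℝ) ≤ (1 / c) * (G.N : ℝ) := by
    rw [div_mul_eq_mul_div, one_mul, le_div_iff₀ hc, mul_comm]
    exact G.length_le j
  have h2 := ENNReal.ofReal_le_ofReal h1
  rw [ENNReal.ofReal_mul (by positivity), ENNReal.ofReal_natCast, ENNReal.ofReal_natCast] at h2
  exact h2

/-- The measure of an invariant set is controlled by its measure in the base. -/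
lemma measure_invariant_le (hc : 0 < c) (G : GoodTower T J c ε) (hinj : InjOn T (Ico (0 : ℝ) 1))
    {A : Set ℝ} (hAm : MeasurableSet A) (hA : T ⁻¹' A = A) :
    volume.restrict (Ico (0 : ℝ) 1) A
      ≤ ENNReal.ofReal (1 / c) * ((G.N : ℝ≥0∞) * volume.restrict (Ico (0 : ℝ) G.len) A) := by
  have h1 : ∀ s : Set ℝ, volume.restrict s A = ∫⁻ x in s, A.indicator 1 x := by
    intro s
    rw [lintegral_indicator_one hAm]
  rw [h1, h1, lintegral_skyscraper G hinj, lintegral_base G, Finset.mul_sum, Finset.mul_sum]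
  refine Finset.sum_le_sum fun j _ => ?_
  have h2 : ∀ i, ∫⁻ x in pc G j, A.indicator 1 (T^[i] x) = ∫⁻ x in pc G j, A.indicator 1 x := by
    intro i
    refine lintegral_congr fun x => ?_
    have := iterate_mem_iff hA i x
    by_cases hx : x ∈ A
    · rw [indicator_of_mem hx, indicator_of_mem (this.2 hx)]
      rfl
    · rw [indicator_of_notMem hx, indicator_of_notMem fun h => hx (this.1 h)]
  simp only [h2, Finset.sum_const, Finset.card_range, nsmul_eq_mul]
  rw [← mul_assoc]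
  gcongr
  exact length_le_ofReal hc G j

/-- The oscillation estimate. -/
lemma min_measure_le (G : GoodTower T J c ε) (hinj : InjOn T (Ico (0 : ℝ) 1))
    {A : Set ℝ} (hAm : MeasurableSet A) (hA : T ⁻¹' A = A) {g : ℝ → ℝ}
    {δ : ℝ≥0∞}
    (hg : ∫⁻ x in Ico (0 : ℝ) 1, ‖A.indicator 1 x - g x‖ₑ ≤ δ)
    (hosc : ∀ x y : ℝ, |x - y| ≤ G.len → ‖g x - g y‖ₑ ≤ δ) :
    (G.N : ℝ≥0∞) * min (volume.restrict (Ico (0 : ℝ) G.len) A)
      (volume.restrict (Ico (0 : ℝ) G.len) Aᶜ) ≤ 2 * δ := by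
  set a := volume.restrict (Ico (0 : ℝ) G.len) A with ha
  set b := volume.restrict (Ico (0 : ℝ) G.len) Aᶜ with hb
  have hAc : MeasurableSet Aᶜ := hAm.compl
  -- for a constant
  have h1 : ∀ γ : ℝ, min a b ≤ ∫⁻ x in Ico (0 : ℝ) G.len, ‖A.indicator 1 x - γ‖ₑ := by
    intro γ
    have h2 : ∫⁻ x in Ico (0 : ℝ) G.len, ‖A.indicator 1 x - γ‖ₑ
        = a * ‖(1 : ℝ) - γ‖ₑ + b * ‖γ‖ₑ := by
      rw [← lintegral_add_compl _ hAm]
      congr 1
      · rw [setLIntegral_congr_fun (g := fun _ => ‖(1 : ℝ) - γ‖ₑ) hAm]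
        · rw [setLIntegral_const, mul_comm]
        · intro x hx
          simp [indicator_of_mem hx]
      · rw [setLIntegral_congr_fun (g := fun _ => ‖γ‖ₑ) hAc]
        · rw [setLIntegral_const, mul_comm]
        · intro x hx
          simp [indicator_of_notMem hx]
    rw [h2]
    have h3 : (1 : ℝ≥0∞) ≤ ‖(1 : ℝ) - γ‖ₑ + ‖γ‖ₑ := by
      have := enorm_add_le ((1 : ℝ) - γ) γ
      simpa using this
    calc min a b = min a b * 1 := by rw [mul_one]
      _ ≤ min a b * (‖(1 : ℝ) - γ‖ₑ + ‖γ‖ₑ) := by gcongr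
      _ = min a b * ‖(1 : ℝ) - γ‖ₑ + min a b * ‖γ‖ₑ := by rw [mul_add]
      _ ≤ a * ‖(1 : ℝ) - γ‖ₑ + b * ‖γ‖ₑ := by
        gcongr
        · exact min_le_left _ _
        · exact min_le_right _ _
  have h4 : ∀ i ∈ Finset.range G.N, min a b
      ≤ (∫⁻ x in Ico (0 : ℝ) G.len, ‖A.indicator 1 (T^[i] x) - g (T^[i] x)‖ₑ)
        + δ * ENNReal.ofReal G.len := by
    intro i hi
    rw [Finset.mem_range] at hi
    obtain ⟨t, ht⟩ := G.rigid_trans i hi.le
    refine (h1 (g t)).trans ?_
    have h5 : ∫⁻ x in Ico (0 : ℝ) G.len, ‖A.indicator 1 x - g t‖ₑ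
        ≤ ∫⁻ x in Ico (0 : ℝ) G.len, (‖A.indicator 1 (T^[i] x) - g (T^[i] x)‖ₑ + δ) := by
      refine setLIntegral_mono' measurableSet_Ico fun x hx => ?_
      have h6 : A.indicator (1 : ℝ → ℝ) (T^[i] x) = A.indicator 1 x := by
        have := iterate_mem_iff hA i x
        by_cases hx : x ∈ A
        · rw [indicator_of_mem hx, indicator_of_mem (this.2 hx)]
          rfl
        · rw [indicator_of_notMem hx, indicator_of_notMem fun h => hx (this.1 h)]
      rw [h6]
      have h7 : A.indicator 1 x - g t = (A.indicator 1 x - g (T^[i] x)) + (g (T^[i] x) - g t) := by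
        ring
      rw [h7]
      refine (enorm_add_le _ _).trans ?_
      gcongr
      refine hosc _ _ ?_
      rw [ht x hx]
      rw [show x + t - t = x by ring, abs_of_nonneg hx.1]
      exact hx.2.le
    refine h5.trans ?_
    rw [lintegral_add_right _ measurable_const]
    gcongr
    rw [setLIntegral_const, Real.volume_Ico, sub_zero]
  calc (G.N : ℝ≥0∞) * min a b = ∑ i ∈ Finset.range G.N, min a b := by
        rw [Finset.sum_const, Finset.card_range, nsmul_eq_mul]
    _ ≤ ∑ i ∈ Finset.range G.N,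
        ((∫⁻ x in Ico (0 : ℝ) G.len, ‖A.indicator 1 (T^[i] x) - g (T^[i] x)‖ₑ)
        + δ * ENNReal.ofReal G.len) := Finset.sum_le_sum h4
    _ = (∑ i ∈ Finset.range G.N,
        (∫⁻ x in Ico (0 : ℝ) G.len, ‖A.indicator 1 (T^[i] x) - g (T^[i] x)‖ₑ))
        + δ * ((G.N : ℝ≥0∞) * ENNReal.ofReal G.len) := by
        rw [Finset.sum_add_distrib, Finset.sum_const, Finset.card_range, nsmul_eq_mul]
        ring
    _ ≤ δ + δ * 1 := by
        gcongr
        · exact (lintegral_rigid_le G hinj (fun x => ‖A.indicator 1 x - g x‖ₑ)).trans hg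
        · exact N_mul_len_le G hinj
    _ = 2 * δ := by ring

/-- A measure preserving map of `[0,1)` with arbitrarily fine good towers is ergodic. -/
theorem ergodic_of_towers (hc : 0 < c)
    (hT : MeasurePreserving T (volume.restrict (Ico (0 : ℝ) 1)) (volume.restrict (Ico (0 : ℝ) 1)))
    (hinj : InjOn T (Ico (0 : ℝ) 1))
    (h : ∀ ε : ℝ, 0 < ε → Nonempty (GoodTower T J c ε)) :
    Ergodic T (volume.restrict (Ico (0 : ℝ) 1)) := by
  refine ⟨hT, ⟨fun A hAm hA => ?_⟩⟩
  set μ : Measure ℝ := volume.restrict (Ico (0 : ℝ) 1) with hμ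
  have key : ∀ δ : ℝ, 0 < δ →
      min (μ A) (μ Aᶜ) ≤ ENNReal.ofReal (1 / c) * (2 * ENNReal.ofReal δ) := by
    intro δ hδ
    have hmem : MemLp (A.indicator (1 : ℝ → ℝ)) 1 μ :=
      memLp_indicator_const 1 hAm (1 : ℝ) (Or.inr (measure_ne_top μ A))
    obtain ⟨g, hgs, hg1, hgc, -⟩ := hmem.exists_hasCompactSupport_eLpNorm_sub_le ENNReal.one_ne_top
      (ε := ENNReal.ofReal δ) (by simpa using hδ)
    rw [eLpNorm_one_eq_lintegral_enorm] at hg1
    have huc : UniformContinuous g := hgc.uniformContinuous_of_tendsto_cocompact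
      (hgs.is_zero_at_infty)
    obtain ⟨η, hη, hη2⟩ := Metric.uniformContinuous_iff.1 huc δ hδ
    obtain ⟨G⟩ := h (η / 2) (half_pos hη)
    have hlen : G.len ≤ η / 2 := G.len_le
    have h1 := min_measure_le G hinj hAm hA (δ := ENNReal.ofReal δ) hg1 (by
      intro x y hxy
      have h2 : dist (g x) (g y) < δ := hη2 (by
        rw [Real.dist_eq]
        linarith)
      rw [Real.dist_eq] at h2
      rw [Real.enorm_eq_ofReal_abs]
      exact ENNReal.ofReal_le_ofReal h2.le)
    have hAc : T ⁻¹' Aᶜ = Aᶜ := by rw [preimage_compl, hA]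
    have h3 := measure_invariant_le hc G hinj hAm hA
    have h4 := measure_invariant_le hc G hinj hAm.compl hAc
    rcases le_total (volume.restrict (Ico (0 : ℝ) G.len) A)
      (volume.restrict (Ico (0 : ℝ) G.len) Aᶜ) with h5 | h5
    · rw [min_eq_left h5] at h1
      refine (min_le_left _ _).trans (h3.trans ?_)
      gcongr
    · rw [min_eq_right h5] at h1
      refine (min_le_right _ _).trans (h4.trans ?_)
      gcongr
  have hmin : min (μ A) (μ Aᶜ) = 0 := by
    have h1 : Tendsto (fun δ : ℝ => ENNReal.ofReal (1 / c) * (2 * ENNReal.ofReal δ))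
        (𝓝[>] 0) (𝓝 (ENNReal.ofReal (1 / c) * (2 * ENNReal.ofReal 0))) := by
      refine ENNReal.Tendsto.const_mul (ENNReal.Tendsto.const_mul ?_ (Or.inr (by simp)))
        (Or.inr (by simp))
      exact (ENNReal.continuous_ofReal.tendsto 0).mono_left nhdsWithin_le_nhds
    rw [ENNReal.ofReal_zero, mul_zero, mul_zero] at h1
    refine le_antisymm (ge_of_tendsto h1 ?_) bot_le
    filter_upwards [self_mem_nhdsWithin] with δ hδ
    exact key δ hδ
  rw [eventuallyConst_set]
  rcases min_eq_iff.1 hmin with h1 | h1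
  · right
    exact measure_eq_zero_iff_ae_notMem.1 h1.1
  · left
    exact h1.1

end SkewHM
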