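import Pool.Agent.Lib.Helper64.Skew.Mautner

/-!
# `SL(d,ℝ)` is locally compact, second countable and unimodular
-/

open MeasureTheory Matrix Matrix.SpecialLinearGroup Filter Topology

set_option linter.unusedSectionVars false

namespace SkewHM

instance instLocallyCompactSLR (d : ℕ) : LocallyCompactSpace (SLR d) :=
  haveI : LocallyCompactSpace (Matrix (Fin d) (Fin d) ℝ) :=
    inferInstanceAs (LocallyCompactSpace (Fin d → Fin d → ℝ))
  (Matrix.SpecialLinearGroup.isClosedEmbedding_val (n := Fin d) (R := ℝ)).locallyCompactSpace

instance instSecondCountableSLR (d : ℕ) : SecondCountableTopology (SLR d) :=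
  haveI : SecondCountableTopology (Matrix (Fin d) (Fin d) ℝ) :=
    inferInstanceAs (SecondCountableTopology (Fin d → Fin d → ℝ))
  (Matrix.SpecialLinearGroup.isClosedEmbedding_val (n := Fin d)
    (R := ℝ)).isEmbedding.secondCountableTopology

lemma diag_conj_transvection {ι : Type*} [Fintype ι] [DecidableEq ι] {i j : ι} (hij : i ≠ j)
    (a : ℝ) (ha : a ≠ 0) (c : ℝ) :
    diag2n hij a ha * SpecialLinearGroup.transvection hij c
      = SpecialLinearGroup.transvection hij (a ^ 2 * c) * diag2n hij a ha := by
  apply Subtype.ext
  simp only [Matrix.SpecialLinearGroup.coe_mul]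
  rw [diag2n_eq, transvection_coe, transvection_coe]
  have e1 : a ^ 2 * c * (a⁻¹ - 1) + a ^ 2 * c = c + (a - 1) * c := by field_simp; ring
  simp only [mul_add, add_mul, mul_one, one_mul, single_mul_single_same,
    single_mul_single_of_ne _ _ _ _ hij.symm, add_zero]
  have h1 : (Matrix.single i j (a ^ 2 * c * (a⁻¹ - 1)) : Matrix ι ι ℝ)
      + Matrix.single i j (a ^ 2 * c) = Matrix.single i j c + Matrix.single i j ((a - 1) * c) := by
    rw [← single_add, ← single_add, e1]
  ext k l
  have h2 := congrFun (congrFun h1 k) l
  simp only [Matrix.add_apply] at h2 ⊢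
  linarith

/-- A homomorphism from `SL(d,ℝ)` to a commutative group with zero which does not vanish
is trivial. -/
lemma monoidHom_trivial {ι : Type*} [Fintype ι] [DecidableEq ι] {M : Type*} [CommMonoid M]
    (χ : Matrix.SpecialLinearGroup ι ℝ →* M) (g : Matrix.SpecialLinearGroup ι ℝ) : χ g = 1 := by
  rcases subsingleton_or_nontrivial ι with hι | hι
  · have : g = 1 := by
      apply Subtype.ext
      ext i j
      have hd := g.2
      have hij : i = j := Subsingleton.elim _ _
      subst hij
      have : Unique ι := ⟨⟨i⟩, fun a => Subsingleton.elim _ _⟩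
      rw [Matrix.det_unique] at hd
      have hdef : (default : ι) = i := Subsingleton.elim _ _
      rw [hdef] at hd
      simpa using hd
    rw [this, map_one]
  · have ht : ∀ (i j : ι) (hij : i ≠ j) (c : ℝ),
        χ (SpecialLinearGroup.transvection hij c) = 1 := by
      intro i j hij c
      have h1 := diag_conj_transvection hij (2 : ℝ) two_ne_zero (c / 3)
      have h2 : SpecialLinearGroup.transvection hij ((2 : ℝ) ^ 2 * (c / 3))
          = SpecialLinearGroup.transvection hij c * SpecialLinearGroup.transvection hij (c / 3) := by
        rw [← transvection_add]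
        congr 1
        ring
      rw [h2] at h1
      have h3 := congrArg χ h1
      rw [map_mul, map_mul, map_mul] at h3
      have hu : IsUnit (χ (diag2n hij (2 : ℝ) two_ne_zero)) := (Group.isUnit _).map χ
      have hv : IsUnit (χ (SpecialLinearGroup.transvection hij (c / 3))) := (Group.isUnit _).map χ
      have h4 : (χ (SpecialLinearGroup.transvection hij (c / 3))
          * χ (diag2n hij (2 : ℝ) two_ne_zero)) * 1
          = (χ (SpecialLinearGroup.transvection hij (c / 3))
          * χ (diag2n hij (2 : ℝ) two_ne_zero)) * χ (SpecialLinearGroup.transvection hij c) := by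
        rw [mul_one, mul_comm (χ (SpecialLinearGroup.transvection hij (c / 3)))
          (χ (diag2n hij (2 : ℝ) two_ne_zero))]
        refine h3.trans ?_
        ac_rfl
      exact ((hv.mul hu).mul_left_cancel h4).symm
    refine diagonal_transvection_induction' (fun g => χ g = 1) g ?_ ht ?_
    · intro i j hij c hc
      have h1 := congrArg χ (transvection_diag_identity hij c hc 1 one_ne_zero)
      rw [map_mul, map_mul, map_mul, ht, ht, ht, ht] at h1
      simpa using h1.symm
    · intro A B hA hB
      rw [map_mul, hA, hB, one_mul]

variable {d : ℕ} [MeasurableSpace (SLR d)] [BorelSpace (SLR d)]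

/-- `SL(d,ℝ)` is unimodular. -/
instance isMulRightInvariant_SLR (μ : Measure (SLR d)) [μ.IsHaarMeasure] :
    μ.IsMulRightInvariant := by
  refine ⟨fun g => ?_⟩
  rw [Measure.map_right_mul_eq_modularCharacterFun_smul μ g]
  have h : Measure.modularCharacterFun g = 1 := monoidHom_trivial Measure.modularCharacter g
  rw [h, one_smul]

end SkewHM
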