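import Pool.Agent.Lib.Skew.Defs

/-!
# Word maps of Nielsen families preserve the power of a bi-invariant measure
-/

open MeasureTheory Set

namespace SkewHM

open SkewIET

set_option linter.unusedSectionVars false

section

variable {G : Type*} [Group G]

@[simp] lemma evalWord_nil {n : ℕ} (g : Fin n → G) : evalWord g [] = 1 := rfl

@[simp] lemma evalWord_cons {n : ℕ} (g : Fin n → G) (j : Fin n) (w : List (Fin n)) :
    evalWord g (j :: w) = evalWord g w * g j := rfl

lemma evalWord_append {n : ℕ} (g : Fin n → G) (u v : List (Fin n)) :
    evalWord g (u ++ v) = evalWord g v * evalWord g u := by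
  induction u with
  | nil => simp
  | cons a u ih => simp [ih, mul_assoc]

lemma evalWord_conj {n : ℕ} (g : Fin n → G) (x : G) (w : List (Fin n)) :
    evalWord (fun j => x * g j * x⁻¹) w = x * evalWord g w * x⁻¹ := by
  induction w with
  | nil => simp
  | cons a w ih =>
    rw [evalWord_cons, evalWord_cons, ih]
    group

variable [MeasurableSpace G] [MeasurableMul₂ G] [MeasurableInv G]

lemma measurable_evalWord {n : ℕ} (w : List (Fin n)) :
    Measurable (fun g : Fin n → G => evalWord g w) := by
  induction w with
  | nil => simp
  | cons a w ih => exact ih.mul (measurable_pi_apply a)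

variable {μ : Measure G} [SigmaFinite μ]

/-- A map which changes only the coordinate `l`, by measure preserving transformations which
depend on the other coordinates. -/
lemma measurePreserving_shear {m : ℕ} (l : Fin (m + 1)) (f : (Fin m → G) → G → G)
    (hf : Measurable (fun p : (Fin m → G) × G => f p.1 p.2))
    (hfp : ∀ y, MeasurePreserving (f y) μ μ) :
    MeasurePreserving
      (fun h : Fin (m + 1) → G => Function.update h l (f (fun j => h (l.succAbove j)) (h l)))
      (Measure.pi fun _ => μ) (Measure.pi fun _ => μ) := by
  have h1 := measurePreserving_piFinSuccAbove (fun _ : Fin (m + 1) => μ) l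
  have h2 : MeasurePreserving (fun p : (Fin m → G) × G => (p.1, f p.1 p.2))
      ((Measure.pi fun _ => μ).prod μ) ((Measure.pi fun _ => μ).prod μ) :=
    (MeasurePreserving.id _).skew_product (g := f) hf (Filter.Eventually.of_forall fun y =>
      (hfp y).map_eq)
  have h3 : MeasurePreserving (fun p : G × (Fin m → G) => (f p.2 p.1, p.2))
      (μ.prod (Measure.pi fun _ => μ)) (μ.prod (Measure.pi fun _ => μ)) := by
    have := (Measure.measurePreserving_swap (μ := Measure.pi fun _ : Fin m => μ) (ν := μ)).comp
      (h2.comp (Measure.measurePreserving_swap (μ := μ) (ν := Measure.pi fun _ : Fin m => μ)))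
    exact this
  have h4 := h1.symm.comp (h3.comp h1)
  convert h4 using 1
  funext h
  refine (MeasurableEquiv.piFinSuccAbove (fun _ => G) l).injective ?_
  simp only [Function.comp_apply, MeasurableEquiv.apply_symm_apply]
  have e : ∀ x : Fin (m + 1) → G, (MeasurableEquiv.piFinSuccAbove (fun _ => G) l) x
      = (x l, fun j => x (l.succAbove j)) := fun x => rfl
  rw [e, e]
  refine Prod.ext ?_ ?_
  · simp
  · funext j
    simp [Function.update_of_ne (Fin.succAbove_ne l j)]

/-- A map which fixes the coordinate `a`, and changes the other coordinates by a measure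
preserving map depending on the coordinate `a`. -/
lemma measurePreserving_coshear {m : ℕ} (a : Fin (m + 1)) (f : G → G → G)
    (hf : Measurable (fun p : G × G => f p.1 p.2))
    (hfp : ∀ x, MeasurePreserving (f x) μ μ) (hfa : ∀ x, f x x = x) :
    MeasurePreserving
      (fun (h : Fin (m + 1) → G) (j : Fin (m + 1)) => f (h a) (h j))
      (Measure.pi fun _ => μ) (Measure.pi fun _ => μ) := by
  have h1 := measurePreserving_piFinSuccAbove (fun _ : Fin (m + 1) => μ) a
  have h2 : MeasurePreserving (fun p : G × (Fin m → G) => (p.1, fun j => f p.1 (p.2 j)))
      (μ.prod (Measure.pi fun _ => μ)) (μ.prod (Measure.pi fun _ => μ)) := by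
    refine (MeasurePreserving.id _).skew_product (g := fun x (y : Fin m → G) j => f x (y j)) ?_
      (Filter.Eventually.of_forall fun x => ?_)
    · refine measurable_pi_iff.2 fun j => ?_
      exact hf.comp (measurable_fst.prodMk ((measurable_pi_apply j).comp measurable_snd))
    · exact (measurePreserving_pi (fun _ : Fin m => μ) (fun _ => μ) (fun j => hfp x)).map_eq
  have h4 := h1.symm.comp (h2.comp h1)
  convert h4 using 1
  funext h
  refine (MeasurableEquiv.piFinSuccAbove (fun _ => G) a).injective ?_
  simp only [Function.comp_apply, MeasurableEquiv.apply_symm_apply]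
  have e : ∀ x : Fin (m + 1) → G, (MeasurableEquiv.piFinSuccAbove (fun _ => G) a) x
      = (x a, fun j => x (a.succAbove j)) := fun x => rfl
  rw [e, e]
  refine Prod.ext ?_ ?_
  · simp [hfa]
  · rfl

variable [μ.IsMulLeftInvariant] [μ.IsMulRightInvariant]

lemma measurePreserving_conj (x : G) : MeasurePreserving (fun y => x * y * x⁻¹) μ μ :=
  (measurePreserving_mul_right μ x⁻¹).comp (measurePreserving_mul_left μ x)

/-- The elementary Nielsen moves preserve the measure. -/
lemma measurePreserving_nielsen {n : ℕ} (a b l : Fin n) (hab : a ≠ b) (hl : l = a ∨ l = b) :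
    MeasurePreserving (fun h : Fin n → G => Function.update h l (h b * h a))
      (Measure.pi fun _ => μ) (Measure.pi fun _ => μ) := by
  cases n with
  | zero => exact a.elim0
  | succ m =>
  rcases hl with rfl | rfl
  · obtain ⟨j, hj⟩ := Fin.exists_succAbove_eq hab.symm
    have := measurePreserving_shear (μ := μ) l (fun y x => y j * x)
      (((measurable_pi_apply j).comp measurable_fst).mul measurable_snd)
      (fun y => measurePreserving_mul_left μ (y j))
    simpa [hj] using! this
  · obtain ⟨j, hj⟩ := Fin.exists_succAbove_eq hab
    have := measurePreserving_shear (μ := μ) l (fun y x => x * y j)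
      (measurable_snd.mul ((measurable_pi_apply j).comp measurable_fst))
      (fun y => measurePreserving_mul_right μ (y j))
    simpa [hj] using! this

lemma measurePreserving_nielsenFamily {n : ℕ} (W : Fin n → List (Fin n)) (hW : NielsenFamily W) :
    MeasurePreserving (fun (g : Fin n → G) (j : Fin n) => evalWord g (W j))
      (Measure.pi fun _ => μ) (Measure.pi fun _ => μ) := by
  induction hW with
  | base =>
    have : (fun (g : Fin n → G) (j : Fin n) => evalWord g [j]) = id := by
      funext g j
      simp
    rw [this]
    exact MeasurePreserving.id _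
  | step hW a b l hab hl ih =>
    rename_i W
    have := (measurePreserving_nielsen (μ := μ) a b l hab hl).comp ih
    convert this using 1
    funext g j
    simp only [Function.comp_apply]
    by_cases h : j = l
    · subst h
      simp [evalWord_append]
    · simp [Function.update_of_ne h]

lemma measurePreserving_conj_word {n : ℕ} (c : List (Fin n)) :
    MeasurePreserving (fun (g : Fin n → G) (j : Fin n) =>
      evalWord g c * g j * (evalWord g c)⁻¹)
      (Measure.pi fun _ => μ) (Measure.pi fun _ => μ) := by
  cases n with
  | zero =>
    have : (fun (g : Fin 0 → G) (j : Fin 0) => evalWord g c * g j * (evalWord g c)⁻¹) = id := by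
      funext g j
      exact j.elim0
    rw [this]
    exact MeasurePreserving.id _
  | succ m =>
  induction c with
  | nil =>
    have : (fun (g : Fin (m + 1) → G) (j : Fin (m + 1)) =>
        evalWord g [] * g j * (evalWord g [])⁻¹) = id := by
      funext g j
      simp
    rw [this]
    exact MeasurePreserving.id _
  | cons a c ih =>
    have h1 : MeasurePreserving (fun (h : Fin (m + 1) → G) (j : Fin (m + 1)) =>
        h a * h j * (h a)⁻¹) (Measure.pi fun _ => μ) (Measure.pi fun _ => μ) :=
      measurePreserving_coshear (μ := μ) a (fun x y => x * y * x⁻¹)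
        ((measurable_fst.mul measurable_snd).mul measurable_fst.inv)
        (fun x => measurePreserving_conj x) (fun x => by simp)
    have := h1.comp ih
    convert this using 1
    funext g j
    simp only [Function.comp_apply, evalWord_cons]
    group

/-- The main result of this file. -/
theorem measurePreserving_word {n : ℕ} (W : Fin n → List (Fin n)) (hW : NielsenFamily W)
    (c : List (Fin n)) :
    MeasurePreserving (fun (g : Fin n → G) (j : Fin n) =>
      evalWord g c * evalWord g (W j) * (evalWord g c)⁻¹)
      (Measure.pi fun _ => μ) (Measure.pi fun _ => μ) := by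
  have := (measurePreserving_nielsenFamily (μ := μ) W hW).comp (measurePreserving_conj_word c)
  convert this using 1
  funext g j
  simp only [Function.comp_apply, evalWord_conj]

end

end SkewHM
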